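import Pool.Agent.Helper18.Lem.Least

/-! Many odd numbers without small primes in their Lemoine representations. -/

set_option autoImplicit false

namespace Pool.Agent.Helper18.Lem

open Finset Filter

/-- the good numbers -/
def good (N : ℕ) (b : ℝ) : Set ℕ :=
  {n : ℕ | n ≤ N ∧ Odd n ∧ ∀ p q : ℕ, p.Prime → q.Prime → n = p + 2 * q → b < p ∧ b < q}

theorem primorial_even (x : ℕ) : 2 ∣ primorial (x + 2) :=
  Nat.prime_two.dvd_primorial_iff.mpr (by omega)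

/-- counting in one residue class -/
theorem count_class {c b : ℝ} {x n₀ N L K₀ : ℕ} (hL : (L : ℝ) ≤ c * gro x) (hbL : b ≤ L)
    (hn₀ : n₀ < primorial (x + 2)) (hodd : Odd n₀) (hK₀ : 2 * x + 2 * L < K₀)
    (h1 : ∀ q : ℕ, q.Prime → (q : ℝ) ≤ c * gro x → ∃ l : ℕ, l.Prime ∧ 3 ≤ l ∧ l ≤ x ∧
      (l : ℤ) ∣ (n₀ : ℤ) - 2 * q)
    (h2 : ∀ p : ℕ, p.Prime → Odd p → (p : ℝ) ≤ c * gro x → ∃ l : ℕ, l.Prime ∧ 3 ≤ l ∧ l ≤ x ∧
      (l : ℤ) ∣ (n₀ : ℤ) - p) :
    (N : ℝ) / primorial (x + 2) - 1 - K₀ ≤ ((good N b).ncard : ℝ) := by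
  classical
  set P := primorial (x + 2) with hP
  have hPp : 0 < P := primorial_pos _
  have hfin : (good N b).Finite := (Set.finite_Iic N).subset (fun n hn => hn.1)
  have hinj : Function.Injective (fun k => n₀ + k * P) := by
    intro a a' h
    have h3 : n₀ + a * P = n₀ + a' * P := h
    exact Nat.eq_of_mul_eq_mul_right hPp (by omega)
  have hsub : (((Ico K₀ (N / P)).image (fun k => n₀ + k * P) : Finset ℕ) : Set ℕ) ⊆ good N b := by
    intro n hn
    rw [mem_coe, mem_image] at hn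
    obtain ⟨k, hk, rfl⟩ := hn
    rw [mem_Ico] at hk
    have hodd' : Odd (n₀ + k * P) := by
      apply hodd.add_even
      exact (even_iff_two_dvd.mpr (primorial_even x)).mul_left k
    have hge : K₀ ≤ n₀ + k * P := by
      calc K₀ ≤ k := hk.1
        _ ≤ k * P := Nat.le_mul_of_pos_right k hPp
        _ ≤ _ := Nat.le_add_left _ _
    have hmod : n₀ + k * P ≡ n₀ [MOD P] := by
      unfold Nat.ModEq
      rw [Nat.add_mul_mod_self_right]
    refine ⟨?_, hodd', ?_⟩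
    · have h3 : (k + 1) * P ≤ N / P * P := Nat.mul_le_mul_right P hk.2
      have h4 := Nat.div_mul_le_self N P
      have h5 : (k + 1) * P = k * P + P := by ring
      omega
    · intro p q hp hq hpq
      have h3 := no_small hL hodd' hmod (by omega) h1 h2 p q hp hq hpq
      have h4 : (L : ℝ) < p := by exact_mod_cast h3.1
      have h5 : (L : ℝ) < q := by exact_mod_cast h3.2
      exact ⟨by linarith, by linarith⟩
  have hcard := Set.ncard_le_ncard hsub hfin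
  rw [Set.ncard_coe_finset, Finset.card_image_of_injective _ hinj, Nat.card_Ico] at hcard
  have h3 : ((N / P - K₀ : ℕ) : ℝ) ≤ (good N b).ncard := by exact_mod_cast hcard
  have h4 : ((N / P : ℕ) : ℝ) - K₀ ≤ ((N / P - K₀ : ℕ) : ℝ) := by
    have : N / P ≤ (N / P - K₀) + K₀ := by omega
    have h5 : ((N / P : ℕ) : ℝ) ≤ ((N / P - K₀ : ℕ) : ℝ) + K₀ := by exact_mod_cast this
    linarith
  have h5 : (N : ℝ) / P - 1 ≤ ((N / P : ℕ) : ℝ) := by
    rw [sub_le_iff_le_add, div_le_iff₀ (by exact_mod_cast hPp)]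
    have h6 := Nat.lt_div_mul_add (a := N) hPp
    have h7 : (N : ℝ) < ((N / P : ℕ) : ℝ) * P + P := by exact_mod_cast h6
    linarith
  linarith

theorem ev_pow (B : ℝ) : ∀ᶠ N : ℕ in atTop, B * Real.log N ^ 3 ≤ Real.sqrt N := by
  have h0 : Tendsto (fun N : ℕ => (N : ℝ)) atTop atTop := tendsto_natCast_atTop_atTop
  have h := (Real.isLittleO_pow_log_id_atTop (n := 6)).bound (c := 1 / (B ^ 2 + 1)) (by positivity)
  have h1 := h0.eventually h
  filter_upwards [h1, eventually_ge_atTop 1] with N hN hN1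
  have hN0 : (1 : ℝ) ≤ N := by exact_mod_cast hN1
  have hl : 0 ≤ Real.log N := Real.log_nonneg hN0
  have hl6 : 0 ≤ Real.log N ^ 6 := by positivity
  simp only [id, Real.norm_eq_abs] at hN
  rw [abs_of_nonneg hl6, abs_of_nonneg (by linarith : (0 : ℝ) ≤ N), div_mul_eq_mul_div, one_mul,
    le_div_iff₀ (by positivity)] at hN
  apply Real.le_sqrt_of_sq_le
  calc (B * Real.log N ^ 3) ^ 2 = Real.log N ^ 6 * B ^ 2 := by ring
    _ ≤ Real.log N ^ 6 * (B ^ 2 + 1) := mul_le_mul_of_nonneg_left (by linarith) hl6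
    _ ≤ N := hN

theorem large_least (ε : ℝ) (hε : 0 < ε) : ∃ c : ℝ, 0 < c ∧ ∀ᶠ N : ℕ in atTop,
    (N : ℝ) ^ (1 - ε) ≤ ((good N (c * gro (Real.log N))).ncard : ℝ) := by
  obtain ⟨c, hc, hcov⟩ := covering
  obtain ⟨δ, hδ⟩ : ∃ δ : ℝ, δ = min ε (1 / 2) := ⟨_, rfl⟩
  have hδ0 : 0 < δ := by rw [hδ]; exact lt_min hε (by norm_num)
  have hδ1 : δ ≤ 1 / 2 := by rw [hδ]; exact min_le_right _ _
  have hδε : δ ≤ ε := by rw [hδ]; exact min_le_left _ _
  obtain ⟨B, hB⟩ : ∃ B : ℝ, B = 8 / δ := ⟨_, rfl⟩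
  have hB1 : 1 ≤ B := by
    rw [hB, le_div_iff₀ hδ0]; linarith
  refine ⟨c / (16 * B), by positivity, ?_⟩
  have hT0 : Tendsto (fun N : ℕ => Real.log (N : ℝ)) atTop atTop :=
    Real.tendsto_log_atTop.comp tendsto_natCast_atTop_atTop
  have hT1 : Tendsto (fun N : ℕ => δ / 4 * Real.log (N : ℝ)) atTop atTop :=
    hT0.const_mul_atTop (by positivity)
  have hT : Tendsto (fun N : ℕ => ⌊δ / 4 * Real.log (N : ℝ)⌋₊) atTop atTop :=
    tendsto_nat_floor_atTop.comp hT1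
  have hpow : Tendsto (fun N : ℕ => (N : ℝ) ^ (δ / 2)) atTop atTop :=
    (tendsto_rpow_atTop (by positivity)).comp tendsto_natCast_atTop_atTop
  filter_upwards [hT.eventually hcov, hT.eventually (gro_compare hB1 hc), hT.eventually gro_bounds,
    ev_pow (4 + 2 * c), hT1.eventually (eventually_ge_atTop 2), hpow.eventually (eventually_ge_atTop 96),
    eventually_ge_atTop 1] with N h1 h2 h3 h4 h5 h6 h7
  obtain ⟨x, hx⟩ : ∃ x : ℕ, x = ⌊δ / 4 * Real.log (N : ℝ)⌋₊ := ⟨_, rfl⟩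
  rw [← hx] at h1 h2 h3
  have hN1 : (1 : ℝ) ≤ N := by exact_mod_cast h7
  have hN0 : (0 : ℝ) < N := by linarith
  obtain ⟨T, hTd⟩ : ∃ T : ℝ, T = Real.log N := ⟨_, rfl⟩
  rw [← hTd] at hx h4 h5 ⊢
  have hT0' : 0 < T := by
    by_contra hcon
    have : δ / 4 * T ≤ 0 := mul_nonpos_of_nonneg_of_nonpos (by positivity) (not_lt.mp hcon)
    linarith
  have hx1 : (x : ℝ) ≤ δ / 4 * T := by rw [hx]; exact Nat.floor_le (by positivity)
  have hx2 : δ / 4 * T - 1 < x := by rw [hx]; exact Nat.sub_one_lt_floor _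
  have hxT : (x : ℝ) ≤ T := by
    refine hx1.trans ?_
    calc δ / 4 * T ≤ 1 * T := mul_le_mul_of_nonneg_right (by linarith) hT0'.le
      _ = T := one_mul T
  have hTx : T ≤ B * x := by
    have h8 : δ / 8 * T ≤ x := by linarith
    calc T = B * (δ / 8 * T) := by rw [hB]; field_simp
      _ ≤ B * x := mul_le_mul_of_nonneg_left h8 (by linarith)
  have hb := h2 T hxT hTx
  obtain ⟨n₀, g1, g2, g3, g4⟩ := h1
  obtain ⟨L, hL⟩ : ∃ L : ℕ, L = ⌊c * gro x⌋₊ := ⟨_, rfl⟩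
  rw [← hL] at hb
  have hgx0 : 0 ≤ gro x := le_trans (Nat.cast_nonneg _) h3.1
  have hL1 : (L : ℝ) ≤ c * gro x := by rw [hL]; exact Nat.floor_le (by positivity)
  have hxge : (1 : ℝ) ≤ x := by linarith
  have hsz : (2 * x + 2 * L : ℝ) ≤ Real.sqrt N := by
    refine le_trans ?_ h4
    have e1 : (x : ℝ) ≤ (x : ℝ) ^ 3 := by
      calc (x : ℝ) = x * 1 := (mul_one _).symm
        _ ≤ x * (x : ℝ) ^ 2 := mul_le_mul_of_nonneg_left (one_le_pow₀ hxge) (by linarith)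
        _ = (x : ℝ) ^ 3 := by ring
    have e2 : (x : ℝ) ^ 3 ≤ T ^ 3 := pow_le_pow_left₀ (by linarith) hxT 3
    have e3 : (L : ℝ) ≤ c * (x : ℝ) ^ 3 := hL1.trans (mul_le_mul_of_nonneg_left h3.2 hc.le)
    calc (2 * x + 2 * L : ℝ) ≤ 2 * (x : ℝ) ^ 3 + 2 * (c * (x : ℝ) ^ 3) := by linarith
      _ = (2 + 2 * c) * (x : ℝ) ^ 3 := by ring
      _ ≤ (4 + 2 * c) * T ^ 3 := mul_le_mul (by linarith) e2 (by positivity) (by positivity)
  have hsz2 : 2 * x + 2 * L < Nat.sqrt N + 1 := by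
    have e1 : ((2 * x + 2 * L : ℕ) : ℝ) ≤ Real.sqrt N := by push_cast; exact hsz
    have e2 : 2 * x + 2 * L ≤ Nat.sqrt N := by
      rw [Nat.le_sqrt']
      have e3 : ((2 * x + 2 * L : ℕ) : ℝ) ^ 2 ≤ N := by
        calc ((2 * x + 2 * L : ℕ) : ℝ) ^ 2 ≤ Real.sqrt N ^ 2 :=
              pow_le_pow_left₀ (Nat.cast_nonneg _) e1 2
          _ = N := Real.sq_sqrt (by linarith)
      exact_mod_cast e3
    omega
  have hmain := count_class (N := N) hL1 hb g1 g2 hsz2 g3 g4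
  refine le_trans ?_ hmain
  have hsqrt : ((Nat.sqrt N + 1 : ℕ) : ℝ) ≤ Real.sqrt N + 1 := by
    push_cast
    have := Real.nat_sqrt_le_real_sqrt (a := N)
    linarith
  have hP : (primorial (x + 2) : ℝ) ≤ 16 * (N : ℝ) ^ (δ / 2) := by
    have e1 : (primorial (x + 2) : ℝ) ≤ (4 : ℝ) ^ (x + 2) := by exact_mod_cast primorial_le_four_pow _
    have e2 : (4 : ℝ) ^ (x + 2) = 16 * Real.exp (x * Real.log 4) := by
      rw [pow_add, mul_comm (x : ℝ), Real.exp_mul, Real.exp_log (by norm_num), Real.rpow_natCast]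
      ring
    have e3 : (N : ℝ) ^ (δ / 2) = Real.exp (δ / 2 * T) := by
      rw [Real.rpow_def_of_pos hN0, ← hTd, mul_comm]
    rw [e2] at e1
    refine e1.trans ?_
    rw [e3]
    apply mul_le_mul_of_nonneg_left _ (by norm_num)
    apply Real.exp_le_exp.mpr
    have hl4 : Real.log 4 ≤ 2 := by
      have h8 : Real.log 4 = 2 * Real.log 2 := by
        rw [show (4 : ℝ) = 2 ^ 2 by norm_num, Real.log_pow]; push_cast; ring
      have := Real.log_two_lt_d9
      linarith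
    calc (x : ℝ) * Real.log 4 ≤ (δ / 4 * T) * 2 :=
          mul_le_mul hx1 hl4 (Real.log_nonneg (by norm_num)) (by positivity)
      _ = δ / 2 * T := by ring
  have hPp : (0 : ℝ) < primorial (x + 2) := by exact_mod_cast primorial_pos _
  have hNd : (N : ℝ) ^ (1 - δ / 2) / 16 ≤ (N : ℝ) / primorial (x + 2) := by
    rw [le_div_iff₀ hPp]
    calc (N : ℝ) ^ (1 - δ / 2) / 16 * primorial (x + 2) ≤
        (N : ℝ) ^ (1 - δ / 2) / 16 * (16 * (N : ℝ) ^ (δ / 2)) :=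
          mul_le_mul_of_nonneg_left hP (by positivity)
      _ = (N : ℝ) ^ (1 - δ / 2) * (N : ℝ) ^ (δ / 2) := by ring
      _ = N := by
          rw [← Real.rpow_add hN0]
          norm_num
  have hNd2 : (N : ℝ) ^ (1 - δ / 2) = (N : ℝ) ^ (1 - δ) * (N : ℝ) ^ (δ / 2) := by
    rw [← Real.rpow_add hN0]
    congr 1
    ring
  have hq1 : Real.sqrt N ≤ (N : ℝ) ^ (1 - δ) := by
    rw [Real.sqrt_eq_rpow]
    exact Real.rpow_le_rpow_of_exponent_le hN1 (by linarith)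
  have hq2 : (N : ℝ) ^ (1 - ε) ≤ (N : ℝ) ^ (1 - δ) :=
    Real.rpow_le_rpow_of_exponent_le hN1 (by linarith)
  have hq3 : 1 ≤ (N : ℝ) ^ (1 - δ) := Real.one_le_rpow hN1 (by linarith)
  have hq4 : 96 * (N : ℝ) ^ (1 - δ) ≤ (N : ℝ) ^ (1 - δ / 2) := by
    rw [hNd2, mul_comm]
    exact mul_le_mul_of_nonneg_left h6 (by linarith)
  linarith

end Pool.Agent.Helper18.Lem
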