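import Pool.Agent.Helper18.Lem.Step

/-! Choice of the parameters in the covering step. -/

set_option autoImplicit false

namespace Pool.Agent.Helper18.Lem

open Finset Filter

/-- the growth function `x (log x)^2 logloglog x / (loglog x)^2` -/
noncomputable def gro (x : ℝ) : ℝ :=
  x * Real.log x ^ 2 * Real.log (Real.log (Real.log x)) / Real.log (Real.log x) ^ 2

/-- `log (log x)` grows slower than any multiple of `log x` -/
theorem ev_log (K : ℝ) : ∀ᶠ x : ℝ in atTop, K * Real.log x ≤ x := by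
  have h := Real.isLittleO_log_id_atTop
  have h1 := h.bound (c := 1 / (|K| + 1)) (by positivity)
  filter_upwards [h1, eventually_ge_atTop 1] with x hx hx1
  have hl : 0 ≤ Real.log x := Real.log_nonneg hx1
  have hx0 : 0 ≤ x := by linarith
  simp only [id, Real.norm_eq_abs] at hx
  rw [abs_of_nonneg hl, abs_of_nonneg hx0, div_mul_eq_mul_div, one_mul,
    le_div_iff₀ (by positivity)] at hx
  have h2 : K ≤ |K| + 1 := by linarith [le_abs_self K]
  calc K * Real.log x ≤ (|K| + 1) * Real.log x := mul_le_mul_of_nonneg_right h2 hl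
    _ = Real.log x * (|K| + 1) := by ring
    _ ≤ x := hx

theorem ev_facts (K : ℝ) : ∀ᶠ x : ℕ in atTop,
    K ≤ Real.log (Real.log (Real.log x)) ∧
    Real.log (Real.log (Real.log x)) ≤ Real.log (Real.log x) ∧
    K * Real.log (Real.log x) ≤ Real.log x ∧ K * Real.log x ≤ x := by
  have h0 : Tendsto (fun x : ℕ => (x : ℝ)) atTop atTop := tendsto_natCast_atTop_atTop
  have h1 : Tendsto (fun x : ℕ => Real.log x) atTop atTop := Real.tendsto_log_atTop.comp h0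
  have h2 : Tendsto (fun x : ℕ => Real.log (Real.log x)) atTop atTop := Real.tendsto_log_atTop.comp h1
  have h3 : Tendsto (fun x : ℕ => Real.log (Real.log (Real.log x))) atTop atTop :=
    Real.tendsto_log_atTop.comp h2
  have e1 := h3.eventually (eventually_ge_atTop K)
  have e2 := h2.eventually (ev_log 1)
  have e3 := h1.eventually (ev_log K)
  have e4 := h0.eventually (ev_log K)
  filter_upwards [e1, e2, e3, e4] with x a b c d
  exact ⟨a, by simpa using b, c, d⟩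

/-- the length of the sieving range of small primes -/
theorem par_y {X X2 X3 A K Y : ℝ} (hA6 : 6 ≤ A) (hKA : 8 * A ≤ K) (hX3 : 100 ≤ X3) (h2 : X3 ≤ X2)
    (h3 : K * X2 ≤ X) (hY : Y = X * X3 / (A * X2)) : 8 * X3 ≤ Y ∧ Y ≤ X / 6 := by
  have hX2p : 0 < X2 := by linarith
  have hX3p : 0 < X3 := by linarith
  have hAX2 : 0 < A * X2 := mul_pos (by linarith) hX2p
  have h5 : 8 * A * X2 ≤ X := (mul_le_mul_of_nonneg_right hKA hX2p.le).trans h3
  have hXp : 0 < X := by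
    have : 0 < 8 * A * X2 := by positivity
    linarith
  constructor
  · rw [hY, le_div_iff₀ hAX2]
    calc 8 * X3 * (A * X2) = 8 * A * X2 * X3 := by ring
      _ ≤ X * X3 := mul_le_mul_of_nonneg_right h5 hX3p.le
  · rw [hY, div_le_div_iff₀ hAX2 (by norm_num)]
    have h6 : 6 * X2 ≤ A * X2 := mul_le_mul_of_nonneg_right hA6 hX2p.le
    calc X * X3 * 6 = X * (6 * X3) := by ring
      _ ≤ X * (A * X2) := mul_le_mul_of_nonneg_left (by linarith) hXp.le

/-- bounds for the length -/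
theorem par_L {x X X2 X3 K c Lr : ℝ} (hK100 : 100 ≤ K) (hcK : 2 / c ≤ K) (hc0 : 0 < c) (hc1 : c ≤ 1)
    (hX3 : 100 ≤ X3) (h2 : X3 ≤ X2) (h3 : K * X2 ≤ X) (hx0 : 0 < x)
    (hLr : Lr = c * (x * X ^ 2 * X3 / X2 ^ 2)) : 2 * x ≤ Lr ∧ Lr ≤ x * X ^ 2 := by
  have hX2p : 0 < X2 := by linarith
  have hX3p : 0 < X3 := by linarith
  have hX2sq : 0 < X2 ^ 2 := by positivity
  have hKp : 0 < K := by linarith
  constructor
  · rw [hLr]
    have h5 : 2 ≤ c * K := by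
      rw [div_le_iff₀ hc0] at hcK
      linarith
    have h6 : K ^ 2 * X2 ^ 2 ≤ X ^ 2 := by
      rw [← mul_pow]
      exact pow_le_pow_left₀ (by positivity) h3 2
    have h7 : K ^ 2 ≤ X ^ 2 / X2 ^ 2 := by
      rw [le_div_iff₀ hX2sq]; exact h6
    have h9 : 2 * K ≤ c * (X ^ 2 / X2 ^ 2) := by
      calc 2 * K ≤ (c * K) * K := mul_le_mul_of_nonneg_right h5 hKp.le
        _ = c * K ^ 2 := by ring
        _ ≤ _ := mul_le_mul_of_nonneg_left h7 hc0.le
    have h8 : 2 * 1 ≤ c * (X ^ 2 / X2 ^ 2) * X3 :=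
      mul_le_mul (by linarith) (by linarith) (by norm_num) (by positivity)
    calc 2 * (x : ℝ) ≤ (c * (X ^ 2 / X2 ^ 2) * X3) * x :=
          mul_le_mul_of_nonneg_right (by linarith) hx0.le
      _ = _ := by ring
  · rw [hLr, mul_div_assoc]
    have h5 : X3 / X2 ^ 2 ≤ 1 := by
      rw [div_le_one hX2sq, sq]
      calc X3 ≤ X2 := h2
        _ = X2 * 1 := (mul_one _).symm
        _ ≤ X2 * X2 := mul_le_mul_of_nonneg_left (by linarith) hX2p.le
    have h6 : 0 ≤ X3 / X2 ^ 2 := by positivity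
    have h7 : 0 ≤ (x : ℝ) * X ^ 2 := by positivity
    calc c * (x * X ^ 2 * (X3 / X2 ^ 2)) = (c * (x * X ^ 2)) * (X3 / X2 ^ 2) := by ring
      _ ≤ (1 * (x * X ^ 2)) * 1 := by
          apply mul_le_mul _ h5 h6 (by linarith)
          exact mul_le_mul_of_nonneg_right hc1 h7
      _ = _ := by ring

/-- the smooth numbers -/
theorem par_smo {X X2 X3 A C₁ Y ly lL s L : ℝ} (hC₁ : 0 < C₁) (hA : A = 2 * (C₁ + 3)) (hX2 : 1 ≤ X2)
    (hC₁X2 : C₁ ^ 2 ≤ X2) (hX3 : 0 < X3) (eX2 : Real.exp X2 = X) (eX3 : Real.exp X3 = X2)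
    (hY : Y = X * X3 / (A * X2)) (hly : 0 < ly) (hly1 : ly ≤ Y) (hYX : 1 + Y ≤ X) (hlL : X ≤ lL)
    (hL : 0 ≤ L)
    (h5 : s ≤ L * Real.exp (-(X3 / 2 * lL / ly)) * Real.exp (C₁ * Real.exp (X3 / 2)) *
      (1 + ly) ^ C₁) : s ≤ L / X ^ 2 := by
  have hX2p : 0 < X2 := by linarith
  have hAp : 0 < A := by rw [hA]; linarith
  have hXp : 0 < X := by rw [← eX2]; exact Real.exp_pos _
  have e1 : Real.exp (-(X3 / 2 * lL / ly)) ≤ Real.exp (-(A * X2 / 2)) := by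
    apply Real.exp_le_exp.mpr
    apply neg_le_neg
    rw [le_div_iff₀ hly]
    have h6 : A * X2 / 2 * Y = X3 / 2 * X := by
      rw [hY]; field_simp
    calc A * X2 / 2 * ly ≤ A * X2 / 2 * Y :=
          mul_le_mul_of_nonneg_left hly1 (by positivity)
      _ = X3 / 2 * X := h6
      _ ≤ X3 / 2 * lL := mul_le_mul_of_nonneg_left hlL (by positivity)
  have e2 : Real.exp (C₁ * Real.exp (X3 / 2)) ≤ Real.exp X2 := by
    apply Real.exp_le_exp.mpr
    apply le_of_sq_le_sq _ hX2p.le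
    have h6 : Real.exp (X3 / 2) ^ 2 = X2 := by
      rw [sq, ← Real.exp_add, add_halves, eX3]
    calc (C₁ * Real.exp (X3 / 2)) ^ 2 = C₁ ^ 2 * X2 := by rw [mul_pow, h6]
      _ ≤ X2 * X2 := mul_le_mul_of_nonneg_right (by linarith) hX2p.le
      _ = X2 ^ 2 := by ring
  have e3 : (1 + ly) ^ C₁ ≤ Real.exp (C₁ * X2) := by
    have h6 : Real.exp (C₁ * X2) = X ^ C₁ := by
      rw [Real.rpow_def_of_pos hXp, ← eX2, Real.log_exp, mul_comm]
    rw [h6]
    exact Real.rpow_le_rpow (by linarith) (by linarith) hC₁.le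
  have e4 : L * Real.exp (-(A * X2 / 2)) * Real.exp X2 * Real.exp (C₁ * X2) = L / X ^ 2 := by
    rw [mul_assoc, mul_assoc, ← Real.exp_add, ← Real.exp_add]
    have h6 : -(A * X2 / 2) + (X2 + C₁ * X2) = -(2 * X2) := by rw [hA]; ring
    rw [h6, Real.exp_neg, two_mul, Real.exp_add, eX2, div_eq_mul_inv, sq]
  rw [← e4]
  refine h5.trans ?_
  have p1 : 0 ≤ (1 + ly) ^ C₁ := Real.rpow_nonneg (by linarith) _
  apply mul_le_mul _ e3 p1 (by positivity)
  apply mul_le_mul _ e2 (Real.exp_pos _).le (by positivity)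
  exact mul_le_mul_of_nonneg_left e1 hL

/-- Chebyshev -/
theorem par_pi {x z : ℕ} {X : ℝ} (hX : X = Real.log x) (hX4 : 4 ≤ X) (hxX : 100 * X ≤ x)
    (hz1 : (z : ℝ) ≤ x / X ^ 2) : (x : ℝ) / (4 * X) ≤ (Nat.primeCounting x : ℝ) - z := by
  have hx0 : (0 : ℝ) < x := by linarith
  have hXp : 0 < X := by linarith
  have h5 := Chebyshev.pi_ge x
  rw [← hX] at h5
  have h6 : Real.log ((x : ℝ) + 1) ≤ X + 1 := by
    have h7 : (x : ℝ) + 1 ≤ x * Real.exp 1 := by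
      have h8 := Real.add_one_le_exp (1 : ℝ)
      have h9 : (x : ℝ) * 2 ≤ x * Real.exp 1 := mul_le_mul_of_nonneg_left (by linarith) hx0.le
      linarith
    calc Real.log ((x : ℝ) + 1) ≤ Real.log (x * Real.exp 1) := Real.log_le_log (by positivity) h7
      _ = X + 1 := by rw [Real.log_mul hx0.ne' (Real.exp_pos _).ne', Real.log_exp, ← hX]
  have h8 : (x : ℝ) / (2 * X) ≤ Nat.primeCounting x := by
    refine le_trans ?_ h5
    rw [div_le_div_iff₀ (by positivity) hXp]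
    have h9 := Real.log_two_gt_d9
    have h9' : (x : ℝ) * 0.69 ≤ x * Real.log 2 := mul_le_mul_of_nonneg_left (by linarith) hx0.le
    have h10 : (x : ℝ) ≤ (x * Real.log 2 - Real.log (x + 1)) * 2 := by linarith
    calc (x : ℝ) * X ≤ (x * Real.log 2 - Real.log (x + 1)) * 2 * X :=
          mul_le_mul_of_nonneg_right h10 hXp.le
      _ = _ := by ring
  have h11 : (z : ℝ) ≤ x / (4 * X) := by
    refine hz1.trans ?_
    apply div_le_div_of_nonneg_left hx0.le (by positivity)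
    rw [sq]
    exact mul_le_mul_of_nonneg_right hX4 hXp.le
  have h12 : (x : ℝ) / (2 * X) = x / (4 * X) + x / (4 * X) := by field_simp; norm_num
  linarith

/-- the number of survivors -/
theorem par_br {X X2 C₂ s L lz lLz : ℝ} (hC₂ : 0 < C₂) (hX : 1 ≤ X) (hX2 : 1 ≤ X2) (hL : 0 ≤ L)
    (hlz : X / 2 ≤ lz) (hlog : 1 + lLz ≤ 6 * X2) (hs : s ≤ L / X ^ 2) :
    s + C₂ * (L * (1 + lLz) / lz ^ 2) ≤ (1 + 24 * C₂) * (L * X2 / X ^ 2) := by
  have hXp : 0 < X := by linarith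
  have h5 : L * (1 + lLz) / lz ^ 2 ≤ 24 * (L * X2 / X ^ 2) := by
    have h6 : X ^ 2 / 4 ≤ lz ^ 2 := by
      have h7 := pow_le_pow_left₀ (by positivity : (0 : ℝ) ≤ X / 2) hlz 2
      rw [div_pow] at h7
      norm_num at h7 ⊢
      exact h7
    calc L * (1 + lLz) / lz ^ 2 ≤ L * (6 * X2) / (X ^ 2 / 4) := by
          apply div_le_div₀ (by positivity) _ (by positivity) h6
          exact mul_le_mul_of_nonneg_left hlog hL
      _ = 24 * (L * X2 / X ^ 2) := by field_simp; ring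
  have h7 : L / X ^ 2 ≤ L * X2 / X ^ 2 := by
    apply div_le_div_of_nonneg_right _ (by positivity)
    exact le_mul_of_one_le_right hL hX2
  have h8 := mul_le_mul_of_nonneg_left h5 hC₂.le
  calc _ ≤ L * X2 / X ^ 2 + C₂ * (24 * (L * X2 / X ^ 2)) := add_le_add (hs.trans h7) h8
    _ = _ := by ring

/-- the last computation -/
theorem par_fin {x X X2 X3 A C₂ c L Lr Y ly b : ℝ} (hA : 6 ≤ A) (hC₂ : 0 < C₂) (hX : 0 < X)
    (hX2 : 0 < X2) (hX3 : 0 < X3) (hL0 : 0 ≤ L) (hL1 : L ≤ Lr)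
    (hc : c = 1 / (16 * A * (2 + 48 * C₂)))
    (hLr : Lr = c * (x * X ^ 2 * X3 / X2 ^ 2)) (hY : Y = X * X3 / (A * X2)) (hYp : 0 < Y)
    (hly : Y / 2 ≤ ly) (hb : b ≤ (1 + 24 * C₂) * (L * X2 / X ^ 2)) :
    2 * b * (2 / ly) ≤ x / (4 * X) := by
  have hlyp : 0 < ly := by linarith
  have hAp : 0 < A := by linarith
  have h5 : 2 / ly ≤ 4 / Y := by
    rw [div_le_div_iff₀ hlyp hYp]
    linarith
  calc 2 * b * (2 / ly) ≤ 2 * ((1 + 24 * C₂) * (L * X2 / X ^ 2)) * (4 / Y) := by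
        apply mul_le_mul _ h5 (by positivity) (by positivity)
        linarith
    _ = 8 * (1 + 24 * C₂) * A * (L * X2 ^ 2 / (X ^ 3 * X3)) := by
        rw [hY]; field_simp; ring
    _ ≤ 8 * (1 + 24 * C₂) * A * (Lr * X2 ^ 2 / (X ^ 3 * X3)) := by
        apply mul_le_mul_of_nonneg_left _ (by positivity)
        apply div_le_div_of_nonneg_right _ (by positivity)
        exact mul_le_mul_of_nonneg_right hL1 (by positivity)
    _ = x / (4 * X) := by
        rw [hLr, hc]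
        have : (0 : ℝ) < 2 + 48 * C₂ := by positivity
        field_simp
        ring

/-- the numerical inequalities -/
theorem params {C₁ C₂ : ℝ} (hC₁ : 0 < C₁) (hC₂ : 0 < C₂) (x : ℕ) (X X2 X3 A c : ℝ)
    (hX : X = Real.log x) (hX2 : X2 = Real.log X) (hX3 : X3 = Real.log X2)
    (hA : A = 2 * (C₁ + 3)) (hc : c = 1 / (16 * A * (2 + 48 * C₂))) (K : ℝ)
    (hK : K = 100 + 8 * A + C₁ ^ 2 + 2 / c)
    (h1 : K ≤ X3) (h2 : X3 ≤ X2) (h3 : K * X2 ≤ X) (h4 : K * X ≤ x)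
    (hsm : ∀ L y : ℕ, 1 ≤ L → 2 ≤ y → ∀ η : ℝ, 0 ≤ η → 4 * η ≤ Real.log y →
      ((smo L y).card : ℝ) ≤ L * Real.exp (-(η * Real.log L / Real.log y)) *
        Real.exp (C₁ * Real.exp η) * (1 + Real.log y) ^ C₁) :
    ∃ y z : ℕ, 2 ≤ y ∧ y ≤ z ∧ z ≤ x ∧ z ≤ ⌊c * gro x⌋₊ ∧
      2 * ((smo ⌊c * gro x⌋₊ y).card + C₂ * ((⌊c * gro x⌋₊ : ℕ) *
        (1 + Real.log ((⌊c * gro x⌋₊ : ℕ) / (z : ℝ))) / (Real.log z) ^ 2)) *
      (2 / Real.log y) ≤ (Nat.primeCounting x : ℝ) - z := by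
  have hA6 : 6 ≤ A := by rw [hA]; linarith
  have hAp : 0 < A := by linarith
  have hc0 : 0 < c := by rw [hc]; positivity
  have hc1 : c ≤ 1 := by
    rw [hc, div_le_one (by positivity)]
    have e1 : 1 ≤ 16 * A := by linarith
    have e2 : 1 ≤ 2 + 48 * C₂ := by linarith
    exact one_le_mul_of_one_le_of_one_le e1 e2
  have h2c : 0 < 2 / c := by positivity
  have hsq := sq_nonneg C₁
  have hcK : 2 / c ≤ K := by rw [hK]; linarith
  have hK100 : 100 ≤ K := by rw [hK]; linarith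
  have hKA : 8 * A ≤ K := by rw [hK]; linarith
  have hKC : C₁ ^ 2 ≤ K := by rw [hK]; linarith
  have hX3' : 100 ≤ X3 := by linarith
  have hX2' : 100 ≤ X2 := by linarith
  have hX2p : 0 < X2 := by linarith
  have hX3p : 0 < X3 := by linarith
  have hXX2 : 100 * X2 ≤ X := (mul_le_mul_of_nonneg_right hK100 hX2p.le).trans h3
  have hXX : 10000 ≤ X := by linarith
  have hXp : 0 < X := by linarith
  have hxX : 100 * X ≤ x := (mul_le_mul_of_nonneg_right hK100 hXp.le).trans h4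
  have hx0 : (0 : ℝ) < x := by linarith
  have eX : Real.exp X = x := by rw [hX]; exact Real.exp_log hx0
  have eX2 : Real.exp X2 = X := by rw [hX2]; exact Real.exp_log hXp
  have eX3 : Real.exp X3 = X2 := by rw [hX3]; exact Real.exp_log hX2p
  have hgro : gro x = x * X ^ 2 * X3 / X2 ^ 2 := by
    unfold gro; rw [hX3, hX2, hX]
  obtain ⟨Y, hY⟩ : ∃ Y, Y = X * X3 / (A * X2) := ⟨_, rfl⟩
  obtain ⟨Lr, hLr⟩ : ∃ Lr, Lr = c * gro x := ⟨_, rfl⟩
  rw [← hLr]
  rw [hgro] at hLr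
  obtain ⟨hY1, hY2⟩ := par_y hA6 hKA hX3' h2 h3 hY
  obtain ⟨hLr1, hLr2⟩ := par_L hK100 hcK hc0 hc1 hX3' h2 h3 hx0 hLr
  have hYp : 0 < Y := by linarith
  have hl2 : Real.log 2 ≤ 1 := by have := Real.log_two_lt_d9; linarith
  -- y
  have heY : 4 ≤ Real.exp Y := by
    have := Real.add_one_le_exp Y
    linarith
  obtain ⟨y, hy⟩ : ∃ y : ℕ, y = ⌊Real.exp Y⌋₊ := ⟨_, rfl⟩
  have hy1 : (y : ℝ) ≤ Real.exp Y := by rw [hy]; exact Nat.floor_le (Real.exp_pos _).le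
  have hy2 : Real.exp Y - 1 < y := by rw [hy]; exact Nat.sub_one_lt_floor _
  have hy3 : Real.exp Y / 2 ≤ y := by linarith
  have hyp : (0 : ℝ) < y := by linarith
  have hy4 : 2 ≤ y := by
    have : (2 : ℝ) ≤ y := by linarith
    exact_mod_cast this
  have hly1 : Real.log y ≤ Y := by
    rw [Real.log_le_iff_le_exp hyp]; exact hy1
  have hly2 : Y / 2 ≤ Real.log y := by
    have h5 : Real.log (Real.exp Y / 2) ≤ Real.log y := Real.log_le_log (by positivity) hy3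
    rw [Real.log_div (Real.exp_pos _).ne' (by norm_num), Real.log_exp] at h5
    linarith
  -- z
  have hX2pos : (0 : ℝ) < X ^ 2 := by positivity
  have hxX2 : (x : ℝ) / X ^ 2 = Real.exp (X - 2 * X2) := by
    rw [Real.exp_sub, eX]
    congr 1
    rw [two_mul, Real.exp_add, eX2]
    ring
  have hbig : Real.exp (X / 2) ≤ x / X ^ 2 / 2 := by
    rw [hxX2]
    have h5 : Real.exp (X - 2 * X2) / 2 = Real.exp (X - 2 * X2 - Real.log 2) := by
      rw [Real.exp_sub _ (Real.log 2), Real.exp_log (by norm_num)]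
    rw [h5]
    apply Real.exp_le_exp.mpr
    linarith
  have heX : 4 ≤ Real.exp (X / 2) := by
    have := Real.add_one_le_exp (X / 2)
    linarith
  obtain ⟨z, hz⟩ : ∃ z : ℕ, z = ⌊(x : ℝ) / X ^ 2⌋₊ := ⟨_, rfl⟩
  have hz1 : (z : ℝ) ≤ x / X ^ 2 := by rw [hz]; exact Nat.floor_le (by positivity)
  have hz2 : (x : ℝ) / X ^ 2 - 1 < z := by rw [hz]; exact Nat.sub_one_lt_floor _
  have hz3 : x / X ^ 2 / 2 ≤ (z : ℝ) := by linarith
  have hz4 : Real.exp (X / 2) ≤ z := hbig.trans hz3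
  have hzp : (0 : ℝ) < z := by linarith
  have hlz : X / 2 ≤ Real.log z := by
    rw [Real.le_log_iff_exp_le hzp]; exact hz4
  have hX1 : 1 ≤ X ^ 2 := one_le_pow₀ (by linarith)
  have hzx : (z : ℝ) ≤ x := by
    refine hz1.trans ?_
    rw [div_le_iff₀ hX2pos]
    exact le_mul_of_one_le_right hx0.le hX1
  have hyz : (y : ℝ) ≤ z := by
    refine hy1.trans (le_trans ?_ hz4)
    apply Real.exp_le_exp.mpr
    linarith
  -- L
  obtain ⟨L, hL⟩ : ∃ L : ℕ, L = ⌊Lr⌋₊ := ⟨_, rfl⟩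
  rw [← hL]
  have hLr0 : 0 ≤ Lr := by linarith
  have hL1 : (L : ℝ) ≤ Lr := by rw [hL]; exact Nat.floor_le hLr0
  have hL2 : Lr - 1 < L := by rw [hL]; exact Nat.sub_one_lt_floor _
  have hLx : (x : ℝ) ≤ L := by linarith
  have hLp : (0 : ℝ) < L := by linarith
  have hL1n : 1 ≤ L := by
    have : (1 : ℝ) ≤ L := by linarith
    exact_mod_cast this
  have hlL : X ≤ Real.log L := by rw [hX]; exact Real.log_le_log hx0 hLx
  have hzL : (z : ℝ) ≤ L := hzx.trans hLx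
  have hlyp : 0 < Real.log y := by linarith
  have hsmo : ((smo L y).card : ℝ) ≤ L / X ^ 2 :=
    par_smo hC₁ hA (by linarith) (by linarith) hX3p eX2 eX3 hY hlyp hly1 (by linarith) hlL hLp.le
      (hsm L y hL1n hy4 (X3 / 2) (by linarith) (by linarith))
  -- the logarithm
  have hlog : 1 + Real.log ((L : ℝ) / z) ≤ 6 * X2 := by
    have h5 : (L : ℝ) / z ≤ 2 * X ^ 4 := by
      rw [div_le_iff₀ hzp]
      calc (L : ℝ) ≤ x * X ^ 2 := hL1.trans hLr2
        _ = 2 * X ^ 4 * (x / X ^ 2 / 2) := by field_simp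
        _ ≤ 2 * X ^ 4 * z := mul_le_mul_of_nonneg_left hz3 (by positivity)
    have h6 : Real.log ((L : ℝ) / z) ≤ Real.log (2 * X ^ 4) := Real.log_le_log (by positivity) h5
    rw [Real.log_mul (by norm_num) (by positivity), Real.log_pow, ← hX2] at h6
    push_cast at h6
    linarith
  have hbr := par_br hC₂ (by linarith) (by linarith) hLp.le hlz hlog hsmo
  refine ⟨y, z, hy4, by exact_mod_cast hyz, by exact_mod_cast hzx, by exact_mod_cast hzL, ?_⟩
  refine le_trans ?_ (par_pi hX (by linarith) hxX hz1)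
  exact par_fin hA6 hC₂ hXp hX2p hX3p hLp.le hL1 hc hLr hY hYp hly2 hbr

/-- the covering for all large `x` -/
theorem cover_all : ∃ c : ℝ, 0 < c ∧ ∀ᶠ x : ℕ in atTop, ∃ n₀ : ℕ, n₀ < primorial (x + 2) ∧ Odd n₀ ∧
    ∀ t ∈ tgt ⌊c * gro x⌋₊, ∃ p, p.Prime ∧ 3 ≤ p ∧ p ≤ x ∧ n₀ % p = t % p := by
  obtain ⟨C₁, hC₁, hsm⟩ := smooth_count
  obtain ⟨C₂, hC₂, hsu⟩ := surv
  obtain ⟨A, hA⟩ : ∃ A : ℝ, A = 2 * (C₁ + 3) := ⟨_, rfl⟩
  obtain ⟨c, hc⟩ : ∃ c : ℝ, c = 1 / (16 * A * (2 + 48 * C₂)) := ⟨_, rfl⟩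
  obtain ⟨K, hK⟩ : ∃ K : ℝ, K = 100 + 8 * A + C₁ ^ 2 + 2 / c := ⟨_, rfl⟩
  have hA0 : 0 < A := by rw [hA]; linarith
  refine ⟨c, by rw [hc]; positivity, ?_⟩
  filter_upwards [ev_facts K] with x hx
  obtain ⟨h1, h2, h3, h4⟩ := hx
  obtain ⟨y, z, hy, hyz, hzx, hzL, h⟩ := params hC₁ hC₂ x _ _ _ A c rfl rfl rfl hA hc K hK h1 h2 h3 h4 hsm
  exact step hsu x y z _ hy hyz hzx hzL h

end Pool.Agent.Helper18.Lem
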