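import Pool.Agent.Helper18.Lem.Sums
import Pool.Agent.Helper13.Om.BT

/-!
LM-A. Upper bound for pairs of primes `m`, `a m + b`, uniform in `a`, `b`.

Use `Helper13.Om.sieve_upper` (file `Pool/Agent/Helper13/Om/Sieve.lean`) with `D = ∅`, `t = 2`, `b = 1`, the primes
`3 ≤ ℓ < 2^(E+1)` and `Z ℓ = {x ∈ range ℓ : ℓ ∣ x (a x + b)}`; `E = ⌊log₂ M / 80⌋`, so that the error `2^(40 E) ≤ √M`.
`Z ℓ ⊆ {0, -b/a}`: at most two elements; exactly two if `ℓ ∤ a b`; it contains `0` always. So `1 - |Z ℓ|/ℓ ≤ (1 - 1/ℓ)^2` for `ℓ ∤ ab`,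
`≤ 1 - 1/ℓ` in general. Product: `∏_(3 ≤ ℓ < 2^(E+1)) (1 - 1/ℓ)^2 · ∏_(ℓ ∣ ab) (1 - 1/ℓ)^(-1) ≤ 4 (∏_(ℓ < 2^(E+1)) (1 - 1/ℓ))^2 rho (ab)`
and `Helper13.Om.mertens_prod` (file `Om/BT.lean`): `∏_(p < N) (1 - 1/p) ≤ 1/log N`. See `Helper13/Om/BT.lean` and `Om/Short.lean` for
applications of the same sieve in the case of one class.
If `m` is prime, `a m + b` is prime and `m ≥ 2^(E+1)` then `m % ℓ ∉ Z ℓ` for all these `ℓ` (`a m + b > m`). The `m < 2^(E+1)` are at most `√M`-many.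
`M` with `E ≤ 1` (`M < 2^160`): trivial bound `M`, `rho ≥ 1`, constant large (`log M ≤ 160`).
-/

set_option autoImplicit false

namespace Pool.Agent.Helper18.Lem

open Finset

/-- the forbidden classes -/
private def ZZ (a b l : ℕ) : Finset ℕ := (range l).filter (fun x => l ∣ x * (a * x + b))

private theorem ZZ_sub (a b l : ℕ) : ZZ a b l ⊆ range l := Finset.filter_subset _ _

private theorem ZZ_zero {a b l : ℕ} (hl : l.Prime) : 0 ∈ ZZ a b l := by
  rw [ZZ, Finset.mem_filter, Finset.mem_range]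
  exact ⟨hl.pos, by simp⟩

private theorem ZZ_card_le {a b l : ℕ} (hl : l.Prime) (hab : a.Coprime b) : (ZZ a b l).card ≤ 2 := by
  classical
  have h1 : ((ZZ a b l).erase 0).card ≤ 1 := by
    rw [Finset.card_le_one]
    intro x hx y hy
    rw [Finset.mem_erase, ZZ, Finset.mem_filter, Finset.mem_range] at hx hy
    obtain ⟨hx0, hxl, hxd⟩ := hx
    obtain ⟨hy0, hyl, hyd⟩ := hy
    have hx1 : l ∣ a * x + b := by
      rcases (Nat.Prime.dvd_mul hl).1 hxd with h | h
      · exact absurd (Nat.le_of_dvd (Nat.pos_of_ne_zero hx0) h) (not_le.2 hxl)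
      · exact h
    have hy1 : l ∣ a * y + b := by
      rcases (Nat.Prime.dvd_mul hl).1 hyd with h | h
      · exact absurd (Nat.le_of_dvd (Nat.pos_of_ne_zero hy0) h) (not_le.2 hyl)
      · exact h
    have hla : ¬ l ∣ a := by
      intro h
      have h2 : l ∣ b := (Nat.dvd_add_right (h.mul_right x)).1 hx1
      have h3 : l ∣ 1 := by
        rw [← Nat.Coprime.gcd_eq_one hab]
        exact Nat.dvd_gcd h h2
      exact hl.one_lt.ne' (Nat.dvd_one.1 h3)
    have hmod : (a * x + b) ≡ (a * y + b) [MOD l] :=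
      ((Nat.modEq_zero_iff_dvd.2 hx1).trans (Nat.modEq_zero_iff_dvd.2 hy1).symm)
    have hmod2 : a * x ≡ a * y [MOD l] := Nat.ModEq.add_right_cancel' b hmod
    have hmod3 : x ≡ y [MOD l] := by
      refine Nat.ModEq.cancel_left_of_coprime ?_ hmod2
      exact (Nat.Prime.coprime_iff_not_dvd hl).2 hla
    exact Nat.ModEq.eq_of_lt_of_lt hmod3 hxl hyl
  have h2 := Finset.card_erase_of_mem (ZZ_zero (a := a) (b := b) hl)
  omega

private theorem one_le_ZZ {a b l : ℕ} (hl : l.Prime) : 1 ≤ (ZZ a b l).card :=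
  Finset.card_pos.2 ⟨0, ZZ_zero hl⟩

private theorem two_le_ZZ {a b l : ℕ} (hl : l.Prime) (h : ¬ l ∣ a * b) : 2 ≤ (ZZ a b l).card := by
  classical
  have : Fact l.Prime := ⟨hl⟩
  have ha : ¬ l ∣ a := fun h1 => h (h1.mul_right b)
  have hb : ¬ l ∣ b := fun h1 => h (h1.mul_left a)
  have ha' : (a : ZMod l) ≠ 0 := fun h1 => ha ((ZMod.natCast_eq_zero_iff a l).1 h1)
  have hb' : (b : ZMod l) ≠ 0 := fun h1 => hb ((ZMod.natCast_eq_zero_iff b l).1 h1)
  set x : ZMod l := -(b : ZMod l) / a with hx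
  have hxv : ((x.val : ℕ) : ZMod l) = x := ZMod.natCast_zmod_val x
  have hx0 : x ≠ 0 := div_ne_zero (neg_ne_zero.2 hb') ha'
  have hv0 : x.val ≠ 0 := fun h1 => hx0 ((ZMod.val_eq_zero x).1 h1)
  have hd : l ∣ a * x.val + b := by
    rw [← ZMod.natCast_eq_zero_iff]
    push_cast
    rw [hxv, hx, mul_div_cancel₀ _ ha']
    ring
  have hmem : x.val ∈ ZZ a b l := by
    rw [ZZ, Finset.mem_filter, Finset.mem_range]
    exact ⟨ZMod.val_lt x, hd.mul_left _⟩
  have hsub : ({0, x.val} : Finset ℕ) ⊆ ZZ a b l := by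
    intro y hy
    rw [Finset.mem_insert, Finset.mem_singleton] at hy
    rcases hy with rfl | rfl
    · exact ZZ_zero hl
    · exact hmem
  have h2 : ({0, x.val} : Finset ℕ).card = 2 := Finset.card_pair (Ne.symm hv0)
  rw [← h2]
  exact Finset.card_le_card hsub

private theorem rho_eq {n : ℕ} (hn : 0 < n) :
    rho n = (∏ p ∈ n.primeFactors, (1 - 1 / (p : ℝ)))⁻¹ := by
  have h := Nat.totient_eq_mul_prod_factors n
  have h1 : (n.totient : ℝ) = n * ∏ p ∈ n.primeFactors, (1 - 1 / (p : ℝ)) := by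
    have h2 : ((n.totient : ℚ) : ℝ) = ((n * ∏ p ∈ n.primeFactors, (1 - (p : ℚ)⁻¹) : ℚ) : ℝ) := by
      rw [h]
    push_cast at h2
    simpa only [one_div] using h2
  have hn' : (n : ℝ) ≠ 0 := by exact_mod_cast hn.ne'
  unfold rho
  rw [h1, mul_comm, div_mul_eq_div_div_swap, div_self hn', one_div]

private theorem fac_pos {p : ℕ} (hp : p.Prime) : 0 < 1 - 1 / (p : ℝ) := by
  have h2 : (2 : ℝ) ≤ p := by exact_mod_cast hp.two_le
  have : 1 / (p : ℝ) ≤ 1 / 2 := one_div_le_one_div_of_le (by norm_num) h2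
  linarith

private theorem fac_le {p : ℕ} : 1 - 1 / (p : ℝ) ≤ 1 := by
  have : 0 ≤ 1 / (p : ℝ) := by positivity
  linarith

/-- the product over the sifting primes -/
private theorem prod_bound {a b : ℕ} (ha : 0 < a) (hb : 0 < b) (P : Finset ℕ)
    (hP : ∀ l ∈ P, l.Prime) (hP3 : ∀ l ∈ P, 2 < l) (hab : a.Coprime b) :
    ∏ l ∈ P, (1 - ((ZZ a b l).card : ℝ) / l) ≤ (∏ l ∈ P, (1 - 1 / (l : ℝ))) ^ 2 * rho (a * b) := by
  classical
  set Q := ∏ l ∈ P.filter (fun l => l ∣ a * b), (1 - 1 / (l : ℝ)) with hQ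
  have hQpos : 0 < Q := Finset.prod_pos fun l hl => fac_pos (hP l (Finset.mem_filter.1 hl).1)
  have hR : Q⁻¹ ≤ rho (a * b) := by
    rw [rho_eq (Nat.mul_pos ha hb)]
    have hpos : 0 < ∏ p ∈ (a * b).primeFactors, (1 - 1 / (p : ℝ)) :=
      Finset.prod_pos fun p hp => fac_pos (Nat.prime_of_mem_primeFactors hp)
    refine inv_anti₀ hpos ?_
    have hsub : P.filter (fun l => l ∣ a * b) ⊆ (a * b).primeFactors := by
      intro l hl
      rw [Finset.mem_filter] at hl
      exact Nat.mem_primeFactors.2 ⟨hP l hl.1, hl.2, (Nat.mul_pos ha hb).ne'⟩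
    rw [← Finset.prod_sdiff hsub]
    calc (∏ p ∈ (a * b).primeFactors \ P.filter (fun l => l ∣ a * b), (1 - 1 / (p : ℝ))) * Q
        ≤ 1 * Q := by
          refine mul_le_mul_of_nonneg_right ?_ hQpos.le
          refine Finset.prod_le_one (fun p hp => ?_) (fun p _ => fac_le)
          exact (fac_pos (Nat.prime_of_mem_primeFactors (Finset.mem_sdiff.1 hp).1)).le
      _ = Q := one_mul Q
  have h1 : ∏ l ∈ P, (1 - ((ZZ a b l).card : ℝ) / l) ≤
      ∏ l ∈ P, (if l ∣ a * b then (1 - 1 / (l : ℝ)) else (1 - 1 / (l : ℝ)) ^ 2) := by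
    refine Finset.prod_le_prod (fun l hl => ?_) (fun l hl => ?_)
    · have h2 := ZZ_card_le (hP l hl) hab
      have h3 : ((ZZ a b l).card : ℝ) ≤ 2 := by exact_mod_cast h2
      have h4 : (2 : ℝ) < l := by exact_mod_cast hP3 l hl
      have h5 : ((ZZ a b l).card : ℝ) / l ≤ 1 := by
        rw [div_le_one (by linarith)]
        linarith
      linarith
    · have h4 : (0 : ℝ) < l := by exact_mod_cast (hP l hl).pos
      split_ifs with h
      · have h2 : (1 : ℝ) ≤ (ZZ a b l).card := by exact_mod_cast one_le_ZZ (hP l hl)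
        have h3 : 1 / (l : ℝ) ≤ ((ZZ a b l).card : ℝ) / l := div_le_div_of_nonneg_right h2 h4.le
        linarith
      · have h2 : (2 : ℝ) ≤ (ZZ a b l).card := by exact_mod_cast two_le_ZZ (hP l hl) h
        have h3 : 2 / (l : ℝ) ≤ ((ZZ a b l).card : ℝ) / l := div_le_div_of_nonneg_right h2 h4.le
        have h5 : (1 - 1 / (l : ℝ)) ^ 2 = 1 - 2 / (l : ℝ) + (1 / (l : ℝ)) ^ 2 := by ring
        rw [h5]
        have h6 : 0 ≤ (1 / (l : ℝ)) ^ 2 := sq_nonneg _
        linarith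
  have h2 : (∏ l ∈ P, (if l ∣ a * b then (1 - 1 / (l : ℝ)) else (1 - 1 / (l : ℝ)) ^ 2)) * Q =
      (∏ l ∈ P, (1 - 1 / (l : ℝ))) ^ 2 := by
    rw [hQ, Finset.prod_filter, ← Finset.prod_mul_distrib, ← Finset.prod_pow]
    refine Finset.prod_congr rfl fun l _ => ?_
    split_ifs
    · ring
    · ring
  have h3 : ∏ l ∈ P, (if l ∣ a * b then (1 - 1 / (l : ℝ)) else (1 - 1 / (l : ℝ)) ^ 2) =
      (∏ l ∈ P, (1 - 1 / (l : ℝ))) ^ 2 * Q⁻¹ := by
    rw [← h2, mul_assoc, mul_inv_cancel₀ hQpos.ne', mul_one]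
  rw [h3] at h1
  exact h1.trans (mul_le_mul_of_nonneg_left hR (sq_nonneg _))

theorem pair_count : ∃ C : ℝ, 0 < C ∧ ∀ a b : ℕ, 0 < a → 0 < b → a.Coprime b → ∀ M : ℕ, 2 ≤ M →
    (((Icc 1 M).filter (fun m => m.Prime ∧ (a * m + b).Prime)).card : ℝ) ≤
      C * (M / (Real.log M) ^ 2) * rho (a * b) := by
  classical
  refine ⟨25600 * Real.exp (Helper13.Om.Kt 2) + 48, by positivity, ?_⟩
  intro a b ha hb hab M hM
  set E := Nat.log 2 M / 80 with hE
  set N := 2 ^ (E + 1) with hN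
  set P := N.primesBelow.erase 2 with hPdef
  have hPp : ∀ l ∈ P, l.Prime := fun l hl =>
    Nat.prime_of_mem_primesBelow (Finset.mem_of_mem_erase hl)
  have hPN : ∀ l ∈ P, l < N := fun l hl => Nat.lt_of_mem_primesBelow (Finset.mem_of_mem_erase hl)
  have hP3 : ∀ l ∈ P, 2 < l := by
    intro l hl
    have h1 : l ≠ 2 := Finset.ne_of_mem_erase hl
    have h2 := (hPp l hl).two_le
    omega
  have hPlog : ∀ l ∈ P, Nat.log 2 l ≤ E := by
    intro l hl
    have h1 := hPN l hl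
    have h2 := Nat.log_lt_of_lt_pow (hPp l hl).pos.ne' h1
    omega
  have hs := Helper13.Om.sieve_upper P ∅ (Finset.disjoint_empty_left _) hPp (by simp) 2 hP3 E hPlog
    (ZZ a b) (fun l hl => ⟨ZZ_sub a b l, ZZ_card_le (hPp l hl) hab⟩) (by simp) 1 le_rfl M
  rw [Finset.prod_empty, Finset.prod_empty, one_mul, one_mul, Nat.cast_one, div_one] at hs
  have hMR : (2 : ℝ) ≤ M := by exact_mod_cast hM
  have hM0 : (0 : ℝ) < M := by linarith
  have hlogM : 0 < Real.log M := Real.log_pos (by linarith)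
  have hρ : 1 ≤ rho (a * b) := one_le_rho (Nat.mul_pos ha hb)
  -- the count
  have hcount : ((Icc 1 M).filter (fun m => m.Prime ∧ (a * m + b).Prime)).card ≤
      ((Icc 1 M).filter (fun m => (∀ q ∈ (∅ : Finset ℕ), m % q ∈ ZZ a b q) ∧
        ∀ q ∈ P, m % q ∉ ZZ a b q)).card + N := by
    have hsub : (Icc 1 M).filter (fun m => m.Prime ∧ (a * m + b).Prime) ⊆
        ((Icc 1 M).filter (fun m => (∀ q ∈ (∅ : Finset ℕ), m % q ∈ ZZ a b q) ∧
        ∀ q ∈ P, m % q ∉ ZZ a b q)) ∪ range N := by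
      intro m hm
      rw [Finset.mem_filter] at hm
      obtain ⟨hm1, hmp, hmq⟩ := hm
      rw [Finset.mem_union, Finset.mem_range]
      rcases lt_or_ge m N with h | h
      · exact Or.inr h
      · left
        rw [Finset.mem_filter]
        refine ⟨hm1, by simp, ?_⟩
        intro l hl hmem
        rw [ZZ, Finset.mem_filter] at hmem
        have hlN := hPN l hl
        rcases (Nat.Prime.dvd_mul (hPp l hl)).1 hmem.2 with h1 | h1
        · have h2 : l ∣ m := (Nat.dvd_mod_iff (dvd_refl l)).1 h1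
          have h3 : l = m := (Nat.prime_dvd_prime_iff_eq (hPp l hl) hmp).1 h2
          omega
        · have h2 : l ∣ a * m + b := by
            have h3 : a * m + b ≡ a * (m % l) + b [MOD l] :=
              Nat.ModEq.add_right b (Nat.ModEq.mul_left a (Nat.mod_modEq m l).symm)
            exact Nat.modEq_zero_iff_dvd.1 (h3.trans (Nat.modEq_zero_iff_dvd.2 h1))
          have h3 : l = a * m + b := (Nat.prime_dvd_prime_iff_eq (hPp l hl) hmq).1 h2
          have h4 : m ≤ a * m := Nat.le_mul_of_pos_left m ha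
          omega
    calc _ ≤ _ := Finset.card_le_card hsub
      _ ≤ _ := Finset.card_union_le _ _
      _ = _ := by rw [Finset.card_range]
  have hcountR : (((Icc 1 M).filter (fun m => m.Prime ∧ (a * m + b).Prime)).card : ℝ) ≤
      (((Icc 1 M).filter (fun m => (∀ q ∈ (∅ : Finset ℕ), m % q ∈ ZZ a b q) ∧
        ∀ q ∈ P, m % q ∉ ZZ a b q)).card : ℝ) + N := by exact_mod_cast hcount
  -- the product
  have hprod1 : ∏ l ∈ P, (1 - 1 / (l : ℝ)) ≤ 2 * ∏ l ∈ N.primesBelow, (1 - 1 / (l : ℝ)) := by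
    have h0 : 0 ≤ ∏ l ∈ P, (1 - 1 / (l : ℝ)) :=
      Finset.prod_nonneg fun l hl => (fac_pos (hPp l hl)).le
    by_cases hmem : 2 ∈ N.primesBelow
    · rw [← Finset.mul_prod_erase _ _ hmem, ← hPdef]
      have h1 : (1 : ℝ) - 1 / ((2 : ℕ) : ℝ) = 1 / 2 := by norm_num
      rw [h1]
      linarith
    · have : P = N.primesBelow := by
        rw [hPdef, Finset.erase_eq_of_notMem hmem]
      rw [← this]
      linarith
  have hmer := Helper13.Om.mertens_prod N (by
    calc 2 = 2 ^ 1 := by norm_num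
      _ ≤ 2 ^ (E + 1) := Nat.pow_le_pow_right (by norm_num) (by omega))
  have hlogN : Real.log M / 80 ≤ Real.log N := by
    have h1 : M < 2 ^ (Nat.log 2 M + 1) := Nat.lt_pow_succ_log_self (by norm_num) M
    have h2 : Nat.log 2 M + 1 ≤ 80 * (E + 1) := by omega
    have h3 : (M : ℝ) ≤ (N : ℝ) ^ 80 := by
      have h4 : M ≤ N ^ 80 := by
        rw [hN, ← pow_mul]
        refine h1.le.trans (Nat.pow_le_pow_right (by norm_num) ?_)
        rw [mul_comm]
        exact h2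
      exact_mod_cast h4
    have h5 := Real.log_le_log hM0 h3
    rw [Real.log_pow] at h5
    push_cast at h5
    linarith
  have hlogN0 : 0 < Real.log N := lt_of_lt_of_le (by positivity) hlogN
  have hprod2 : ∏ l ∈ P, (1 - 1 / (l : ℝ)) ≤ 160 / Real.log M := by
    have h1 : 1 / Real.log N ≤ 80 / Real.log M := by
      rw [div_le_div_iff₀ hlogN0 hlogM]
      linarith
    have h2 : (160 : ℝ) / Real.log M = 2 * (80 / Real.log M) := by ring
    rw [h2]
    linarith
  have hprod0 : 0 ≤ ∏ l ∈ P, (1 - 1 / (l : ℝ)) :=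
    Finset.prod_nonneg fun l hl => (fac_pos (hPp l hl)).le
  have hprod3 : ∏ l ∈ P, (1 - ((ZZ a b l).card : ℝ) / l) ≤
      25600 / (Real.log M) ^ 2 * rho (a * b) := by
    refine (prod_bound ha hb P hPp hP3 hab).trans ?_
    refine mul_le_mul_of_nonneg_right ?_ (by linarith)
    calc (∏ l ∈ P, (1 - 1 / (l : ℝ))) ^ 2 ≤ (160 / Real.log M) ^ 2 :=
          pow_le_pow_left₀ hprod0 hprod2 2
      _ = 25600 / (Real.log M) ^ 2 := by
          rw [div_pow]
          norm_num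
  -- the errors
  have herr : (2 : ℝ) ^ (20 * E * (1 + 1)) ≤ Real.sqrt M := by
    rw [Real.le_sqrt (by positivity) hM0.le, ← pow_mul]
    have h1 : 2 ^ (20 * E * (1 + 1) * 2) ≤ M := by
      refine le_trans (Nat.pow_le_pow_right (by norm_num) ?_) (Nat.pow_log_le_self 2 (by omega))
      omega
    exact_mod_cast h1
  have hNle : (N : ℝ) ≤ 2 * Real.sqrt M := by
    have h1 : (N : ℝ) ≤ 2 * (2 : ℝ) ^ (20 * E * (1 + 1)) := by
      have h2 : N ≤ 2 * 2 ^ (20 * E * (1 + 1)) := by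
        rw [hN, ← pow_succ']
        exact Nat.pow_le_pow_right (by norm_num) (by omega)
      exact_mod_cast h2
    linarith
  have hsqrt : Real.sqrt M ≤ 16 * (M / (Real.log M) ^ 2) := by
    have h1 : Real.log M ≤ 4 * Real.sqrt (Real.sqrt M) := by
      have h2 : Real.log (Real.sqrt (Real.sqrt M)) ≤ Real.sqrt (Real.sqrt M) - 1 :=
        Real.log_le_sub_one_of_pos (by positivity)
      rw [Real.log_sqrt (by positivity), Real.log_sqrt hM0.le] at h2
      linarith
    have h2 : (Real.log M) ^ 2 ≤ 16 * Real.sqrt M := by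
      calc (Real.log M) ^ 2 ≤ (4 * Real.sqrt (Real.sqrt M)) ^ 2 :=
            pow_le_pow_left₀ hlogM.le h1 2
        _ = 16 * Real.sqrt M := by
            rw [mul_pow, Real.sq_sqrt (Real.sqrt_nonneg _)]
            norm_num
    have h3 : Real.sqrt M * Real.sqrt M = M := Real.mul_self_sqrt hM0.le
    rw [← mul_div_assoc, le_div_iff₀ (by positivity)]
    calc Real.sqrt M * (Real.log M) ^ 2 ≤ Real.sqrt M * (16 * Real.sqrt M) :=
          mul_le_mul_of_nonneg_left h2 (Real.sqrt_nonneg _)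
      _ = 16 * (Real.sqrt M * Real.sqrt M) := by ring
      _ = 16 * M := by rw [h3]
  have hL : 0 ≤ (M : ℝ) / (Real.log M) ^ 2 := by positivity
  have hfin : (M : ℝ) * (∏ l ∈ P, (1 - ((ZZ a b l).card : ℝ) / l)) *
      Real.exp (Helper13.Om.Kt 2) ≤
      25600 * Real.exp (Helper13.Om.Kt 2) * (M / (Real.log M) ^ 2) * rho (a * b) := by
    calc (M : ℝ) * (∏ l ∈ P, (1 - ((ZZ a b l).card : ℝ) / l)) * Real.exp (Helper13.Om.Kt 2)
        ≤ M * (25600 / (Real.log M) ^ 2 * rho (a * b)) * Real.exp (Helper13.Om.Kt 2) :=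
          mul_le_mul_of_nonneg_right (mul_le_mul_of_nonneg_left hprod3 hM0.le)
            (Real.exp_pos _).le
      _ = _ := by ring
  have hrest : (2 : ℝ) ^ (20 * E * (1 + 1)) + N ≤ 48 * (M / (Real.log M) ^ 2) * rho (a * b) := by
    calc (2 : ℝ) ^ (20 * E * (1 + 1)) + N ≤ 3 * Real.sqrt M := by linarith
      _ ≤ 48 * (M / (Real.log M) ^ 2) * 1 := by linarith
      _ ≤ 48 * (M / (Real.log M) ^ 2) * rho (a * b) :=
          mul_le_mul_of_nonneg_left hρ (by positivity)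
  calc (((Icc 1 M).filter (fun m => m.Prime ∧ (a * m + b).Prime)).card : ℝ)
      ≤ (M : ℝ) * (∏ l ∈ P, (1 - ((ZZ a b l).card : ℝ) / l)) * Real.exp (Helper13.Om.Kt 2) +
        (2 : ℝ) ^ (20 * E * (1 + 1)) + N := by
        refine hcountR.trans ?_
        linarith
    _ ≤ 25600 * Real.exp (Helper13.Om.Kt 2) * (M / (Real.log M) ^ 2) * rho (a * b) +
        48 * (M / (Real.log M) ^ 2) * rho (a * b) := by linarith
    _ = (25600 * Real.exp (Helper13.Om.Kt 2) + 48) * (M / (Real.log M) ^ 2) * rho (a * b) := by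
        ring

end Pool.Agent.Helper18.Lem
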