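import Pool.Agent.Helper18.Lem.Sums
import Pool.Agent.Helper18.Lem.Pair

/-!
LM-F. The number of odd `n = p + 2 q` with `p ≤ U`, `q ≤ V`.

Lower bound: `A` = pairs `(p, q)`, `p` an odd prime `≤ U`, `q` a prime `≤ V`; `#A = (π(U) - 1) π(V) ≥ π(U) π(V) / 2`. The map `(p, q) ↦ p + 2 q` goes to `reps U V`.
Cauchy-Schwarz: `#A ^ 2 ≤ #(reps U V) · E`, `E` = number of pairs of elements of `A` with the same value. Diagonal: `#A`. Off the diagonal:
`p' - p = 2 h`, `q - q' = h` with `1 ≤ h ≤ min U V` (or the mirror image), so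
`E ≤ #A + 2 ∑_(h ≤ min U V) #{p ≤ U : p, p + 2h prime} #{q ≤ V : q, q + h prime}`, by `pair_count` (`a = 1`, `b = 2 h`, `b = h`) and `rho (2h) ≤ 2 rho h`
`≤ #A + 4 C^2 (U / log^2 U)(V / log^2 V) ∑_(h ≤ min U V) rho h ^ 2 ≤ #A + C' U V min(U, V) / (log^2 U log^2 V)`. Chebyshev: `Chebyshev.pi_ge` gives
`π(U) ≥ c U / log U` for all `U ≥ 3` (small `U` by adjusting `c`), so `E ≤ #A + C'' π(U)^2 π(V)^2 / max(U, V)` (`U V = max · min`).
With `P = π(U) π(V)`, `m = max U V`: `#reps ≥ (P/2)^2 / (P + C'' P^2 / m) ≥ c min(P, m)`.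
Upper bound: `#reps ≤ U + 2V + 1 ≤ 4 m`, and `#reps ≤ π(U) π(V)` (image of pairs).
-/

set_option autoImplicit false

namespace Pool.Agent.Helper18.Lem

open Finset

private theorem four_pow_ge (n : ℕ) (hn : 3 ≤ n) : (n + 1) ^ 3 ≤ 4 ^ n := by
  induction n, hn using Nat.le_induction with
  | base => norm_num
  | succ k hk ih =>
    have h1 : (k + 1 + 1) ^ 3 ≤ 4 * (k + 1) ^ 3 := by nlinarith [Nat.zero_le (k ^ 3), Nat.zero_le (k ^ 2)]
    calc (k + 1 + 1) ^ 3 ≤ 4 * (k + 1) ^ 3 := h1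
      _ ≤ 4 * 4 ^ k := by omega
      _ = 4 ^ (k + 1) := by ring

private theorem pi_lower (n : ℕ) (hn : 3 ≤ n) :
    Real.log 2 / 3 * ((n : ℝ) / Real.log n) ≤ (Nat.primeCounting n : ℝ) := by
  have h0 := Chebyshev.pi_ge n
  have hl : 0 < Real.log n := Real.log_pos (by exact_mod_cast (show 1 < n by omega))
  refine le_trans ?_ h0
  rw [le_div_iff₀ hl]
  have h1 : Real.log 2 / 3 * ((n : ℝ) / Real.log n) * Real.log n = Real.log 2 / 3 * n := by
    field_simp
  rw [h1]
  have h2 : ((n : ℝ) + 1) ^ 3 ≤ (4 : ℝ) ^ n := by exact_mod_cast four_pow_ge n hn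
  have h3 : Real.log (((n : ℝ) + 1) ^ 3) ≤ Real.log ((4 : ℝ) ^ n) :=
    Real.log_le_log (by positivity) h2
  rw [Real.log_pow, Real.log_pow] at h3
  have h4 : Real.log 4 = 2 * Real.log 2 := by
    rw [show (4 : ℝ) = 2 ^ 2 by norm_num, Real.log_pow]; norm_num
  rw [h4] at h3
  push_cast at h3
  nlinarith

private theorem card_primes (n : ℕ) :
    ((Icc 1 n).filter Nat.Prime).card = Nat.primeCounting n := by
  unfold Nat.primeCounting Nat.primeCounting'
  rw [Nat.count_eq_card_filter_range]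
  congr 1
  ext p
  simp only [mem_filter, mem_Icc, mem_range]
  constructor
  · rintro ⟨⟨h1, h2⟩, h3⟩
    exact ⟨by omega, h3⟩
  · rintro ⟨h1, h3⟩
    exact ⟨⟨h3.one_le, by omega⟩, h3⟩

private theorem prs_eq (U V : ℕ) : prs U V =
    (((Icc 1 U).filter Nat.Prime).erase 2) ×ˢ ((Icc 1 V).filter Nat.Prime) := by
  ext ⟨p, q⟩
  simp only [prs, mem_filter, mem_product, mem_Icc, mem_erase]
  constructor
  · rintro ⟨⟨hp, hq⟩, hpp, ho, hqq⟩
    refine ⟨⟨?_, hp, hpp⟩, hq, hqq⟩
    rintro rfl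
    exact absurd ho (by decide)
  · rintro ⟨⟨h2, hp, hpp⟩, hq, hqq⟩
    exact ⟨⟨hp, hq⟩, hpp, hpp.odd_of_ne_two h2, hqq⟩

private theorem card_prs (U V : ℕ) (hU : 3 ≤ U) :
    (prs U V).card = (Nat.primeCounting U - 1) * Nat.primeCounting V := by
  rw [prs_eq, card_product, card_erase_of_mem, card_primes, card_primes]
  simp only [mem_filter, mem_Icc]
  exact ⟨⟨by omega, by omega⟩, Nat.prime_two⟩

private theorem two_le_pi (U : ℕ) (hU : 3 ≤ U) : 2 ≤ Nat.primeCounting U := by
  have h1 : Nat.primeCounting 3 ≤ Nat.primeCounting U := Nat.monotone_primeCounting hU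
  have h2 : Nat.primeCounting 3 = 2 := by
    rw [← card_primes]
    decide
  omega

/-- ordered pairs of elements of `prs U V` with the same value and the first prime smaller -/
private def offd (U V : ℕ) : Finset ((ℕ × ℕ) × (ℕ × ℕ)) :=
  (prs U V ×ˢ prs U V).filter (fun z => z.1.1 + 2 * z.1.2 = z.2.1 + 2 * z.2.2 ∧ z.1.1 < z.2.1)

private theorem energy_le (U V : ℕ) :
    ((prs U V ×ˢ prs U V).filter (fun z => z.1.1 + 2 * z.1.2 = z.2.1 + 2 * z.2.2)).card ≤
      (prs U V).card + 2 * (offd U V).card := by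
  classical
  have hsub : (prs U V ×ˢ prs U V).filter (fun z => z.1.1 + 2 * z.1.2 = z.2.1 + 2 * z.2.2) ⊆
      ((prs U V).image (fun x => (x, x))) ∪ (offd U V ∪ (offd U V).image Prod.swap) := by
    rintro ⟨⟨p, q⟩, ⟨p', q'⟩⟩ hz
    rw [mem_filter, mem_product] at hz
    obtain ⟨⟨h1, h2⟩, h3⟩ := hz
    dsimp only at h1 h2 h3
    rw [mem_union, mem_union]
    rcases lt_trichotomy p p' with h | h | h
    · right; left
      rw [offd, mem_filter, mem_product]
      exact ⟨⟨h1, h2⟩, h3, h⟩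
    · left
      subst h
      have : q = q' := by omega
      subst this
      exact mem_image.2 ⟨(p, q), h1, rfl⟩
    · right; right
      refine mem_image.2 ⟨((p', q'), (p, q)), ?_, rfl⟩
      rw [offd, mem_filter, mem_product]
      exact ⟨⟨h2, h1⟩, h3.symm, h⟩
  refine (card_le_card hsub).trans ((card_union_le _ _).trans ?_)
  have h4 := card_union_le (offd U V) ((offd U V).image Prod.swap)
  have h5 : ((offd U V).image Prod.swap).card ≤ (offd U V).card := card_image_le
  have h6 : ((prs U V).image (fun x => (x, x))).card ≤ (prs U V).card := card_image_le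
  omega

private theorem offd_le (U V : ℕ) :
    (offd U V).card ≤ ∑ h ∈ Icc 1 (min U V),
      ((Icc 1 U).filter (fun m => m.Prime ∧ (1 * m + 2 * h).Prime)).card *
      ((Icc 1 V).filter (fun m => m.Prime ∧ (1 * m + h).Prime)).card := by
  classical
  have hmaps : ∀ z ∈ offd U V, z.1.2 - z.2.2 ∈ Icc 1 (min U V) := by
    rintro ⟨⟨p, q⟩, ⟨p', q'⟩⟩ hz
    simp only [offd, prs, mem_filter, mem_product, mem_Icc] at hz
    obtain ⟨⟨⟨⟨⟨h1, h2⟩, h3, h4⟩, -⟩, ⟨⟨h5, h6⟩, h7, h8⟩, -⟩, h9, h10⟩ := hz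
    simp only [mem_Icc, le_min_iff]
    omega
  rw [card_eq_sum_card_fiberwise hmaps]
  refine sum_le_sum fun h hh => ?_
  rw [← card_product]
  refine card_le_card_of_injOn (fun z => (z.1.1, z.2.2)) ?_ ?_
  · rintro ⟨⟨p, q⟩, ⟨p', q'⟩⟩ hz
    simp only [offd, prs, coe_filter, mem_filter, mem_product, mem_Icc, Set.mem_ofPred_eq] at hz
    obtain ⟨⟨⟨⟨⟨⟨h1, h2⟩, h3, h4⟩, a1, a2, a3⟩, ⟨⟨h5, h6⟩, h7, h8⟩, b1, b2, b3⟩, h9, h10⟩, h11⟩ := hz
    simp only [coe_product, Set.mem_prod, coe_filter, mem_Icc, Set.mem_ofPred_eq]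
    refine ⟨⟨⟨h1, h2⟩, a1, ?_⟩, ⟨h7, h8⟩, b3, ?_⟩
    · have : 1 * p + 2 * h = p' := by omega
      rw [this]; exact b1
    · have : 1 * q' + h = q := by omega
      rw [this]; exact a3
  · rintro ⟨⟨p, q⟩, ⟨p', q'⟩⟩ hz ⟨⟨r, s⟩, ⟨r', s'⟩⟩ hw heq
    simp only [offd, prs, coe_filter, mem_filter, mem_product, mem_Icc, Set.mem_ofPred_eq] at hz hw
    simp only [Prod.mk.injEq] at heq
    obtain ⟨e1, e2⟩ := heq
    obtain ⟨⟨-, h9, h10⟩, h11⟩ := hz
    obtain ⟨⟨-, k9, k10⟩, k11⟩ := hw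
    simp only [Prod.mk.injEq]
    omega

private theorem card_sq_le (U V : ℕ) :
    (prs U V).card ^ 2 ≤ (reps U V).card *
      ((prs U V ×ˢ prs U V).filter (fun z => z.1.1 + 2 * z.1.2 = z.2.1 + 2 * z.2.2)).card := by
  classical
  set f : ℕ → ℕ := fun n => ((prs U V).filter (fun x => x.1 + 2 * x.2 = n)).card with hf
  have h1 : (prs U V).card = ∑ n ∈ reps U V, f n :=
    card_eq_sum_card_fiberwise (fun x hx => mem_image_of_mem _ hx)
  have h2 : ((prs U V ×ˢ prs U V).filter (fun z => z.1.1 + 2 * z.1.2 = z.2.1 + 2 * z.2.2)).card =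
      ∑ n ∈ reps U V, f n ^ 2 := by
    rw [card_eq_sum_card_fiberwise (t := reps U V) (f := fun z => z.1.1 + 2 * z.1.2)]
    · refine sum_congr rfl fun n hn => ?_
      rw [hf, sq, ← card_product]
      congr 1
      ext ⟨x, y⟩
      simp only [mem_filter, mem_product]
      constructor
      · rintro ⟨⟨⟨a, b⟩, c⟩, d⟩
        exact ⟨⟨a, d⟩, b, c ▸ d⟩
      · rintro ⟨⟨a, d⟩, b, e⟩
        exact ⟨⟨⟨a, b⟩, d.trans e.symm⟩, d⟩
    · intro z hz
      have hz' := (mem_filter.1 (mem_coe.1 hz)).1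
      exact mem_coe.2 (mem_image.2 ⟨z.1, (mem_product.1 hz').1, rfl⟩)
  rw [h2, h1]
  exact sq_sum_le_card_mul_sum_sq

theorem box : ∃ c C : ℝ, 0 < c ∧ 0 < C ∧ ∀ U V : ℕ, 3 ≤ U → 3 ≤ V →
    c * min ((Nat.primeCounting U : ℝ) * Nat.primeCounting V) (max (U : ℝ) V) ≤ (reps U V).card ∧
    ((reps U V).card : ℝ) ≤ C * min ((Nat.primeCounting U : ℝ) * Nat.primeCounting V) (max (U : ℝ) V) := by
  obtain ⟨C1, hC1, hpair⟩ := pair_count
  obtain ⟨C2, hC2, hsum⟩ := sum_rho_sq
  set d : ℝ := Real.log 2 / 3 with hd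
  have hdpos : 0 < d := by rw [hd]; have := Real.log_pos (show (1 : ℝ) < 2 by norm_num); positivity
  set K : ℝ := 4 * C1 ^ 2 * C2 / d ^ 4 with hK
  have hKpos : 0 < K := by positivity
  refine ⟨1 / (4 * (1 + K)), 4, by positivity, by norm_num, ?_⟩
  intro U V hU hV
  have hA := card_prs U V hU
  have hpU := two_le_pi U hU
  have hpV := two_le_pi V hV
  set P : ℝ := (Nat.primeCounting U : ℝ) * Nat.primeCounting V with hP
  set M : ℝ := max (U : ℝ) V with hM
  have hUr : (3 : ℝ) ≤ U := by exact_mod_cast hU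
  have hVr : (3 : ℝ) ≤ V := by exact_mod_cast hV
  have hM3 : 3 ≤ M := le_trans hUr (le_max_left _ _)
  have hUM : (U : ℝ) ≤ M := le_max_left _ _
  have hVM : (V : ℝ) ≤ M := le_max_right _ _
  have hpUr : (2 : ℝ) ≤ Nat.primeCounting U := by exact_mod_cast hpU
  have hpVr : (2 : ℝ) ≤ Nat.primeCounting V := by exact_mod_cast hpV
  have hPpos : 0 < P := by rw [hP]; positivity
  have hAr : ((prs U V).card : ℝ) = ((Nat.primeCounting U : ℝ) - 1) * Nat.primeCounting V := by
    rw [hA]; push_cast [Nat.cast_sub (show 1 ≤ Nat.primeCounting U by omega)]; ring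
  have hAP : ((prs U V).card : ℝ) ≤ P := by rw [hAr, hP]; nlinarith
  have hAP2 : P / 2 ≤ ((prs U V).card : ℝ) := by rw [hAr, hP]; nlinarith
  constructor
  · -- lower bound
    have hlU : 0 < Real.log U := Real.log_pos (by linarith)
    have hlV : 0 < Real.log V := Real.log_pos (by linarith)
    have hoff : ((offd U V).card : ℝ) ≤ K / 2 * (P ^ 2 / M) := by
      have h1 : ((offd U V).card : ℝ) ≤ ∑ h ∈ Icc 1 (min U V),
          (((Icc 1 U).filter (fun m => m.Prime ∧ (1 * m + 2 * h).Prime)).card : ℝ) *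
          (((Icc 1 V).filter (fun m => m.Prime ∧ (1 * m + h).Prime)).card : ℝ) := by
        have := offd_le U V
        exact_mod_cast this
      have h2 : ∑ h ∈ Icc 1 (min U V),
          (((Icc 1 U).filter (fun m => m.Prime ∧ (1 * m + 2 * h).Prime)).card : ℝ) *
          (((Icc 1 V).filter (fun m => m.Prime ∧ (1 * m + h).Prime)).card : ℝ) ≤
          ∑ h ∈ Icc 1 (min U V), (2 * C1 ^ 2 * ((U : ℝ) / Real.log U ^ 2) * ((V : ℝ) / Real.log V ^ 2)) *
            rho h ^ 2 := by
        refine sum_le_sum fun h hh => ?_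
        rw [mem_Icc] at hh
        have hh1 : 0 < h := by omega
        have g1 := hpair 1 (2 * h) one_pos (by omega) (Nat.coprime_one_left _) U (by omega)
        have g2 := hpair 1 h one_pos hh1 (Nat.coprime_one_left _) V (by omega)
        rw [one_mul] at g1 g2
        have g3 : rho (2 * h) ≤ 2 * rho h := by
          have := rho_mul_le (show 0 < 2 by norm_num) hh1
          rwa [rho_two] at this
        have g4 : 1 ≤ rho h := one_le_rho hh1
        have g5 : (((Icc 1 U).filter (fun m => m.Prime ∧ (1 * m + 2 * h).Prime)).card : ℝ) ≤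
            C1 * (U / (Real.log U) ^ 2) * (2 * rho h) :=
          g1.trans (mul_le_mul_of_nonneg_left g3 (by positivity))
        calc _ ≤ (C1 * (U / (Real.log U) ^ 2) * (2 * rho h)) * (C1 * (V / (Real.log V) ^ 2) * rho h) :=
              mul_le_mul g5 g2 (Nat.cast_nonneg _) (by positivity)
          _ = _ := by ring
      rw [← mul_sum] at h2
      have h3 := hsum (min U V)
      have h4 : ((min U V : ℕ) : ℝ) = min (U : ℝ) V := by push_cast; rfl
      have h5 : (2 * C1 ^ 2 * ((U : ℝ) / Real.log U ^ 2) * ((V : ℝ) / Real.log V ^ 2)) *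
          ∑ h ∈ Icc 1 (min U V), rho h ^ 2 ≤
          (2 * C1 ^ 2 * ((U : ℝ) / Real.log U ^ 2) * ((V : ℝ) / Real.log V ^ 2)) * (C2 * min (U : ℝ) V) := by
        refine mul_le_mul_of_nonneg_left ?_ (by positivity)
        rw [← h4]; exact h3
      have h6 : min (U : ℝ) V = U * V / M := by
        rw [eq_div_iff (by positivity), hM, min_mul_max]
      have h7 : (2 * C1 ^ 2 * ((U : ℝ) / Real.log U ^ 2) * ((V : ℝ) / Real.log V ^ 2)) * (C2 * min (U : ℝ) V) =
          2 * C1 ^ 2 * C2 * (((U : ℝ) / Real.log U) ^ 2 * ((V : ℝ) / Real.log V) ^ 2) / M := by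
        rw [h6]; ring
      have h8 : d * ((U : ℝ) / Real.log U) ≤ Nat.primeCounting U := pi_lower U hU
      have h9 : d * ((V : ℝ) / Real.log V) ≤ Nat.primeCounting V := pi_lower V hV
      have h10 : (d * ((U : ℝ) / Real.log U)) ^ 2 ≤ (Nat.primeCounting U : ℝ) ^ 2 :=
        pow_le_pow_left₀ (by positivity) h8 2
      have h11 : (d * ((V : ℝ) / Real.log V)) ^ 2 ≤ (Nat.primeCounting V : ℝ) ^ 2 :=
        pow_le_pow_left₀ (by positivity) h9 2
      have h12 : (d * ((U : ℝ) / Real.log U)) ^ 2 * (d * ((V : ℝ) / Real.log V)) ^ 2 ≤ P ^ 2 := by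
        calc _ ≤ (Nat.primeCounting U : ℝ) ^ 2 * (Nat.primeCounting V : ℝ) ^ 2 :=
              mul_le_mul h10 h11 (by positivity) (by positivity)
          _ = P ^ 2 := by rw [hP]; ring
      have h13 : ((U : ℝ) / Real.log U) ^ 2 * ((V : ℝ) / Real.log V) ^ 2 ≤ P ^ 2 / d ^ 4 := by
        rw [le_div_iff₀ (by positivity)]
        calc _ = (d * ((U : ℝ) / Real.log U)) ^ 2 * (d * ((V : ℝ) / Real.log V)) ^ 2 := by ring
          _ ≤ _ := h12
      have h14 : 2 * C1 ^ 2 * C2 * (((U : ℝ) / Real.log U) ^ 2 * ((V : ℝ) / Real.log V) ^ 2) / M ≤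
          2 * C1 ^ 2 * C2 * (P ^ 2 / d ^ 4) / M :=
        div_le_div_of_nonneg_right (mul_le_mul_of_nonneg_left h13 (by positivity)) (by positivity)
      have h15 : 2 * C1 ^ 2 * C2 * (P ^ 2 / d ^ 4) / M = K / 2 * (P ^ 2 / M) := by
        rw [hK]; ring
      linarith
    have hE := energy_le U V
    have hCS := card_sq_le U V
    set Ecard := ((prs U V ×ˢ prs U V).filter (fun z => z.1.1 + 2 * z.1.2 = z.2.1 + 2 * z.2.2)).card with hEc
    have hEr : (Ecard : ℝ) ≤ (prs U V).card + 2 * (offd U V).card := by exact_mod_cast hE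
    have hCSr : ((prs U V).card : ℝ) ^ 2 ≤ (reps U V).card * (Ecard : ℝ) := by exact_mod_cast hCS
    have hE2 : (Ecard : ℝ) ≤ P + K * (P ^ 2 / M) := by linarith
    have hR : (0 : ℝ) ≤ (reps U V).card := Nat.cast_nonneg _
    have h20 : (P / 2) ^ 2 ≤ (reps U V).card * (P + K * (P ^ 2 / M)) := by
      calc (P / 2) ^ 2 ≤ ((prs U V).card : ℝ) ^ 2 := pow_le_pow_left₀ (by positivity) hAP2 2
        _ ≤ (reps U V).card * (Ecard : ℝ) := hCSr
        _ ≤ _ := mul_le_mul_of_nonneg_left hE2 hR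
    -- P M ≤ 4 R (M + K P)
    have h21 : P * M ≤ 4 * (reps U V).card * (M + K * P) := by
      have e1 : (reps U V).card * (P + K * (P ^ 2 / M)) = (reps U V).card * (M + K * P) * (P / M) := by
        field_simp
      rw [e1] at h20
      have e2 : (P / 2) ^ 2 = (P * M / 4) * (P / M) := by field_simp; ring
      rw [e2] at h20
      have h22 := le_of_mul_le_mul_right h20 (by positivity : 0 < P / M)
      linarith
    have hMpos : 0 < M := by linarith
    have hmm : min P M * max P M = P * M := min_mul_max P M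
    have h23 : M + K * P ≤ (1 + K) * max P M := by
      have a1 : M ≤ max P M := le_max_right _ _
      have a2 : P ≤ max P M := le_max_left _ _
      nlinarith
    have hmaxpos : 0 < max P M := lt_of_lt_of_le hPpos (le_max_left _ _)
    have h24 : min P M * max P M ≤ 4 * (reps U V).card * ((1 + K) * max P M) := by
      rw [hmm]
      exact h21.trans (mul_le_mul_of_nonneg_left h23 (by positivity))
    have h25 : min P M ≤ 4 * (1 + K) * (reps U V).card := by
      have : min P M * max P M ≤ (4 * (1 + K) * (reps U V).card) * max P M := by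
        calc _ ≤ _ := h24
          _ = _ := by ring
      exact le_of_mul_le_mul_right this hmaxpos
    rw [div_mul_eq_mul_div, one_mul, div_le_iff₀ (by positivity)]
    linarith
  · -- upper bound
    have h1 : ((reps U V).card : ℝ) ≤ P := by
      refine le_trans ?_ hAP
      exact_mod_cast card_image_le
    have h2 : (reps U V).card ≤ U + 2 * V := by
      have hsub : reps U V ⊆ Icc 1 (U + 2 * V) := by
        intro n hn
        rw [reps, mem_image] at hn
        obtain ⟨x, hx, rfl⟩ := hn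
        simp only [prs, mem_filter, mem_product, mem_Icc] at hx
        rw [mem_Icc]
        omega
      have := card_le_card hsub
      simpa using this
    have h3 : ((reps U V).card : ℝ) ≤ U + 2 * V := by exact_mod_cast h2
    have h4 : ((reps U V).card : ℝ) ≤ 4 * M := by linarith
    have h5 : ((reps U V).card : ℝ) ≤ 4 * P := by linarith
    rw [mul_min_of_nonneg _ _ (by norm_num : (0 : ℝ) ≤ 4)]
    exact le_min h5 h4

end Pool.Agent.Helper18.Lem
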