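import Pool.Agent.Helper18.Lem.Defs

/-!
LM-D. Greedy choice of classes, one prime for each survivor, Chinese remainder theorem.

* `greedy`: induction on `P`; for one prime `p` and a finite set `T` some class `a < p` contains at least `#T / p` elements
  (`Finset.exists_le_card_fiber_of_mul_le_card_of_maps_to` or sum over the classes).
* `assemble`: classes `e % p` for `p ∈ Md`, greedy classes for `p ∈ S` applied to the survivors of `Md`, then an injection of the
  survivors into `Lg` (`Finset.exists_injOn_...` / `Finset.card_le_card_iff`...: `R.card ≤ Lg.card` gives an injective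
  `f : R → Lg`; the class of `p = f t` is `t % p`). `Nat.chineseRemainderOfFinset` on `Nat.primesLE x` (product = `primorial x`;
  the class at `2` is `1`, any class at the remaining primes). `hS` etc.: all primes in `S`, `Md`, `Lg` are odd and `≤ x`; the
  three sets are pairwise disjoint.
-/

set_option autoImplicit false

namespace Pool.Agent.Helper18.Lem

open Finset

theorem greedy (T P : Finset ℕ) (hP : ∀ p ∈ P, 2 ≤ p) :
    ∃ a : ℕ → ℕ, ((T.filter (fun t => ∀ p ∈ P, t % p ≠ a p)).card : ℝ) ≤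
      T.card * ∏ p ∈ P, (1 - 1 / (p : ℝ)) := by
  classical
  induction P using Finset.induction_on with
  | empty => exact ⟨fun _ => 0, by simp⟩
  | insert p P hp ih =>
    obtain ⟨a, ha⟩ := ih fun q hq => hP q (mem_insert_of_mem hq)
    have hp2 : 2 ≤ p := hP p (mem_insert_self _ _)
    set R := T.filter (fun t => ∀ q ∈ P, t % q ≠ a q) with hR
    have hsum : ∑ c ∈ range p, ((R.filter (fun t => t % p = c)).card : ℝ) = R.card := by
      have h := Finset.card_eq_sum_card_fiberwise (s := R) (t := range p) (f := fun t => t % p)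
        (fun t _ => by simpa using Nat.mod_lt _ (by omega))
      rw [h]
      push_cast
      rfl
    obtain ⟨c, hc, hcc⟩ : ∃ c ∈ range p, (R.card : ℝ) / p ≤
        ((R.filter (fun t => t % p = c)).card : ℝ) := by
      by_contra hcon
      push Not at hcon
      have hlt : ∑ c ∈ range p, ((R.filter (fun t => t % p = c)).card : ℝ) <
          ∑ _c ∈ range p, (R.card : ℝ) / p :=
        Finset.sum_lt_sum_of_nonempty ⟨0, mem_range.2 (by omega)⟩ hcon
      rw [hsum, sum_const, card_range, nsmul_eq_mul] at hlt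
      have hp0 : (p : ℝ) ≠ 0 := by
        have : p ≠ 0 := by omega
        exact_mod_cast this
      rw [mul_div_cancel₀ _ hp0] at hlt
      exact lt_irrefl _ hlt
    refine ⟨fun q => if q = p then c else a q, ?_⟩
    have hset : T.filter (fun t => ∀ q ∈ insert p P, t % q ≠ if q = p then c else a q) =
        R.filter (fun t => ¬ t % p = c) := by
      ext t
      simp only [hR, mem_filter, mem_insert, forall_eq_or_imp, if_true]
      constructor
      · rintro ⟨ht, h1, h2⟩
        refine ⟨⟨ht, fun q hq => ?_⟩, h1⟩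
        have h3 := h2 q hq
        have h4 : q ≠ p := fun h => hp (h ▸ hq)
        rwa [if_neg h4] at h3
      · rintro ⟨⟨ht, h1⟩, h2⟩
        refine ⟨ht, h2, fun q hq => ?_⟩
        have h4 : q ≠ p := fun h => hp (h ▸ hq)
        rw [if_neg h4]
        exact h1 q hq
    rw [hset]
    have hadd : ((R.filter (fun t => t % p = c)).card : ℝ) +
        ((R.filter (fun t => ¬ t % p = c)).card : ℝ) = R.card := by
      have := Finset.card_filter_add_card_filter_not (s := R) (fun t => t % p = c)
      exact_mod_cast this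
    rw [prod_insert hp]
    have h1p : (0 : ℝ) ≤ 1 - 1 / (p : ℝ) := by
      have hp1 : (1 : ℝ) ≤ p := by
        have : 1 ≤ p := by omega
        exact_mod_cast this
      have : 1 / (p : ℝ) ≤ 1 := by
        rw [div_le_one (by linarith)]
        exact hp1
      linarith
    calc ((R.filter (fun t => ¬ t % p = c)).card : ℝ) ≤ R.card - R.card / p := by linarith
      _ = (1 - 1 / (p : ℝ)) * R.card := by ring
      _ ≤ (1 - 1 / (p : ℝ)) * (T.card * ∏ q ∈ P, (1 - 1 / (q : ℝ))) :=
        mul_le_mul_of_nonneg_left ha h1p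
      _ = T.card * ((1 - 1 / (p : ℝ)) * ∏ q ∈ P, (1 - 1 / (q : ℝ))) := by ring

theorem assemble (x e : ℕ) (T S Md Lg : Finset ℕ) (hS : ∀ p ∈ S, p.Prime ∧ 3 ≤ p ∧ p ≤ x)
    (hMd : ∀ p ∈ Md, p.Prime ∧ 3 ≤ p ∧ p ≤ x) (hLg : ∀ p ∈ Lg, p.Prime ∧ 3 ≤ p ∧ p ≤ x)
    (h1 : Disjoint S Md) (h2 : Disjoint S Lg) (h3 : Disjoint Md Lg)
    (h : ((T.filter (fun t => ∀ p ∈ Md, t % p ≠ e % p)).card : ℝ) * ∏ p ∈ S, (1 - 1 / (p : ℝ)) ≤
      Lg.card) :
    ∃ n₀ : ℕ, n₀ < primorial (x + 2) ∧ Odd n₀ ∧
      ∀ t ∈ T, ∃ p, p.Prime ∧ 3 ≤ p ∧ p ≤ x ∧ n₀ % p = t % p := by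
  classical
  set R0 := T.filter (fun t => ∀ p ∈ Md, t % p ≠ e % p) with hR0
  obtain ⟨a, ha⟩ := greedy R0 S fun p hp => by have := (hS p hp).2.1; omega
  set R := R0.filter (fun t => ∀ p ∈ S, t % p ≠ a p) with hR
  have hcard : R.card ≤ Lg.card := by
    have := ha.trans h
    exact_mod_cast this
  obtain ⟨f, hf, hinj⟩ : ∃ f : ℕ → ℕ, (∀ t ∈ R, f t ∈ Lg) ∧ Set.InjOn f (R : Set ℕ) := by
    have h4 : Nonempty (R ↪ Lg) := by
      apply Function.Embedding.nonempty_of_card_le
      rw [Fintype.card_coe, Fintype.card_coe]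
      exact hcard
    obtain ⟨g⟩ := h4
    refine ⟨fun t => if ht : t ∈ R then (g ⟨t, ht⟩ : ℕ) else 0, fun t ht => ?_, ?_⟩
    · simp only [ht, dif_pos]
      exact (g ⟨t, ht⟩).2
    · intro t ht u hu htu
      have ht' : t ∈ R := ht
      have hu' : u ∈ R := hu
      simp only [ht', hu', dif_pos] at htu
      have h5 := g.injective (Subtype.ext htu)
      exact congrArg Subtype.val h5
  let c : ℕ → ℕ := fun p => if p = 2 then 1 else if p ∈ Md then e % p else if p ∈ S then a p
    else if hp : ∃ t ∈ R, f t = p then hp.choose % p else 0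
  have hcop : Set.Pairwise (((range (x + 2 + 1)).filter Nat.Prime : Finset ℕ) : Set ℕ)
      (Function.onFun Nat.Coprime (fun p : ℕ => p)) := by
    intro p hp q hq hpq
    have hp' := (mem_filter.1 (mem_coe.1 hp)).2
    have hq' := (mem_filter.1 (mem_coe.1 hq)).2
    exact (Nat.coprime_primes hp' hq').2 hpq
  have hne : ∀ p ∈ (range (x + 2 + 1)).filter Nat.Prime, (fun p : ℕ => p) p ≠ 0 := fun p hp =>
    (mem_filter.1 hp).2.ne_zero
  set K := Nat.chineseRemainderOfFinset c (fun p : ℕ => p) ((range (x + 2 + 1)).filter Nat.Prime)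
    hne hcop with hK
  have hlt := Nat.chineseRemainderOfFinset_lt_prod c (fun p : ℕ => p) hne hcop
  have hcong : ∀ p, p.Prime → p ≤ x + 2 → (K : ℕ) % p = c p % p := fun p hp hpx =>
    K.2 p (mem_filter.2 ⟨mem_range.2 (by omega), hp⟩)
  refine ⟨K, hlt, ?_, fun t ht => ?_⟩
  · have h6 := hcong 2 Nat.prime_two (by omega)
    have h7 : c 2 = 1 := if_pos rfl
    rw [h7] at h6
    exact Nat.odd_iff.2 h6
  · by_cases h8 : ∃ p ∈ Md, t % p = e % p
    · obtain ⟨p, hp, hpt⟩ := h8
      obtain ⟨hp1, hp3, hpx⟩ := hMd p hp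
      refine ⟨p, hp1, hp3, hpx, ?_⟩
      rw [hcong p hp1 (by omega)]
      have h9 : c p = e % p := by
        have hp2 : p ≠ 2 := by omega
        simp only [c, hp2, hp, if_true, if_false]
      rw [h9, Nat.mod_mod, hpt]
    · push Not at h8
      by_cases h10 : ∃ p ∈ S, t % p = a p
      · obtain ⟨p, hp, hpt⟩ := h10
        obtain ⟨hp1, hp3, hpx⟩ := hS p hp
        refine ⟨p, hp1, hp3, hpx, ?_⟩
        rw [hcong p hp1 (by omega)]
        have h9 : c p = a p := by
          have hp2 : p ≠ 2 := by omega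
          have hpM : p ∉ Md := Finset.disjoint_left.1 h1 hp
          simp only [c, hp2, hpM, hp, if_true, if_false]
        rw [h9, ← hpt, Nat.mod_mod]
      · push Not at h10
        have htR : t ∈ R := by
          rw [hR, mem_filter, hR0, mem_filter]
          exact ⟨⟨ht, h8⟩, h10⟩
        have hp := hf t htR
        obtain ⟨hp1, hp3, hpx⟩ := hLg _ hp
        refine ⟨f t, hp1, hp3, hpx, ?_⟩
        rw [hcong _ hp1 (by omega)]
        have hex : ∃ u ∈ R, f u = f t := ⟨t, htR, rfl⟩
        have h9 : c (f t) = hex.choose % f t := by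
          have hp2 : f t ≠ 2 := by omega
          have hpM : f t ∉ Md := Finset.disjoint_right.1 h3 hp
          have hpS : f t ∉ S := Finset.disjoint_right.1 h2 hp
          simp only [c, hp2, hpM, hpS, if_false]
          rw [dif_pos hex]
        have h11 : hex.choose = t := hinj hex.choose_spec.1 htR hex.choose_spec.2
        rw [h9, h11, Nat.mod_mod]

end Pool.Agent.Helper18.Lem
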