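import Mathlib

/-! Definitions for the study of small primes in Lemoine representations `n = p + 2 q`. -/

namespace Pool.Agent.Helper18.Lem

open Finset

/-- `n / φ(n)` -/
noncomputable def rho (n : ℕ) : ℝ := (n : ℝ) / (n.totient : ℝ)

/-- the positive integers up to `L` all of whose prime factors are at most `y` -/
def smo (L y : ℕ) : Finset ℕ := (Icc 1 L).filter (fun k => ∀ p ∈ k.primeFactors, p ≤ y)

/-- the pairs of primes `p ≤ U`, `q ≤ V` with `p` odd -/
def prs (U V : ℕ) : Finset (ℕ × ℕ) :=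
  (Icc 1 U ×ˢ Icc 1 V).filter (fun x => x.1.Prime ∧ Odd x.1 ∧ x.2.Prime)

/-- the (odd) integers `n = p + 2 q` with primes `p ≤ U`, `q ≤ V`, `p` odd -/
def reps (U V : ℕ) : Finset ℕ := (prs U V).image (fun x => x.1 + 2 * x.2)

end Pool.Agent.Helper18.Lem
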