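import Pool.Agent.Helper18.Lem.Asym

/-! Odd numbers without small primes in their Lemoine representations. -/

set_option autoImplicit false

namespace Pool.Agent.Helper18.Lem

open Finset Filter

theorem gro_bounds : ∀ᶠ x : ℕ in atTop, (x : ℝ) ≤ gro x ∧ gro x ≤ (x : ℝ) ^ 3 := by
  filter_upwards [ev_facts 1, eventually_ge_atTop 1] with x hx hx1
  obtain ⟨h1, h2, h3, h4⟩ := hx
  rw [one_mul] at h3 h4
  have hx0 : (1 : ℝ) ≤ x := by exact_mod_cast hx1
  unfold gro
  set X := Real.log x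
  set X2 := Real.log X
  set X3 := Real.log X2
  have hX2 : 1 ≤ X2 := h1.trans h2
  have hX : 1 ≤ X := hX2.trans h3
  have hX2sq : 0 < X2 ^ 2 := by positivity
  constructor
  · rw [le_div_iff₀ hX2sq]
    have h5 : X2 ^ 2 ≤ X ^ 2 := pow_le_pow_left₀ (by linarith) h3 2
    calc (x : ℝ) * X2 ^ 2 ≤ x * X ^ 2 := mul_le_mul_of_nonneg_left h5 (by linarith)
      _ ≤ x * X ^ 2 * X3 := le_mul_of_one_le_right (by positivity) h1
  · rw [div_le_iff₀ hX2sq]
    have h5 : X3 ≤ X2 ^ 2 := by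
      rw [sq]
      calc X3 ≤ X2 := h2
        _ ≤ X2 * X2 := le_mul_of_one_le_right (by linarith) hX2
    have h6 : X ^ 2 ≤ (x : ℝ) ^ 2 := pow_le_pow_left₀ (by linarith) h4 2
    calc (x : ℝ) * X ^ 2 * X3 ≤ (x * (x : ℝ) ^ 2) * X2 ^ 2 := by
          apply mul_le_mul _ h5 (by linarith) (by positivity)
          exact mul_le_mul_of_nonneg_left h6 (by linarith)
      _ = _ := by ring

/-- the covering in terms of divisibility -/
theorem covering : ∃ c : ℝ, 0 < c ∧ ∀ᶠ x : ℕ in atTop, ∃ n₀ : ℕ, n₀ < primorial (x + 2) ∧ Odd n₀ ∧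
    (∀ q : ℕ, q.Prime → (q : ℝ) ≤ c * gro x → ∃ l : ℕ, l.Prime ∧ 3 ≤ l ∧ l ≤ x ∧
      (l : ℤ) ∣ (n₀ : ℤ) - 2 * q) ∧
    (∀ p : ℕ, p.Prime → Odd p → (p : ℝ) ≤ c * gro x → ∃ l : ℕ, l.Prime ∧ 3 ≤ l ∧ l ≤ x ∧
      (l : ℤ) ∣ (n₀ : ℤ) - p) := by
  obtain ⟨c, hc, h⟩ := cover_all
  refine ⟨c, hc, ?_⟩
  filter_upwards [h] with x hx
  obtain ⟨n₀, h1, h2, h3⟩ := hx
  refine ⟨n₀, h1, h2, ?_, ?_⟩
  · intro q hq hqL
    have ht : 2 * q ∈ tgt ⌊c * gro x⌋₊ := by
      unfold tgt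
      rw [mem_union, mem_image]
      left
      refine ⟨q, ?_, rfl⟩
      rw [mem_filter, mem_Icc]
      exact ⟨⟨hq.pos, Nat.le_floor hqL⟩, hq⟩
    obtain ⟨l, hl1, hl2, hl3, hl4⟩ := h3 _ ht
    refine ⟨l, hl1, hl2, hl3, ?_⟩
    have h5 : 2 * q ≡ n₀ [MOD l] := hl4.symm
    have h6 := (Nat.modEq_iff_dvd.mp h5)
    push_cast at h6
    exact h6
  · intro p hp hodd hpL
    have hp3 : 3 ≤ p := by
      have := hp.two_le
      rcases Nat.lt_or_ge 2 p with h5 | h5
      · exact h5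
      · have : p = 2 := by omega
        subst this
        exact absurd hodd (by decide)
    have ht : p ∈ tgt ⌊c * gro x⌋₊ := by
      unfold tgt
      rw [mem_union]
      right
      rw [mem_filter, mem_Icc]
      exact ⟨⟨hp3, Nat.le_floor hpL⟩, hp⟩
    obtain ⟨l, hl1, hl2, hl3, hl4⟩ := h3 _ ht
    refine ⟨l, hl1, hl2, hl3, ?_⟩
    have h5 : p ≡ n₀ [MOD l] := hl4.symm
    exact (Nat.modEq_iff_dvd.mp h5)

/-- no representation with a small prime -/
theorem no_small {c : ℝ} {x n₀ n L : ℕ} (hL : (L : ℝ) ≤ c * gro x) (hn : Odd n)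
    (hmod : n ≡ n₀ [MOD primorial (x + 2)]) (hbig : 2 * x + 2 * L < n)
    (h1 : ∀ q : ℕ, q.Prime → (q : ℝ) ≤ c * gro x → ∃ l : ℕ, l.Prime ∧ 3 ≤ l ∧ l ≤ x ∧
      (l : ℤ) ∣ (n₀ : ℤ) - 2 * q)
    (h2 : ∀ p : ℕ, p.Prime → Odd p → (p : ℝ) ≤ c * gro x → ∃ l : ℕ, l.Prime ∧ 3 ≤ l ∧ l ≤ x ∧
      (l : ℤ) ∣ (n₀ : ℤ) - p) (p q : ℕ) (hp : p.Prime) (hq : q.Prime) (hpq : n = p + 2 * q) :
    L < p ∧ L < q := by
  have hdiv : ∀ l : ℕ, l.Prime → l ≤ x → (l : ℤ) ∣ (n : ℤ) - n₀ := by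
    intro l hl hlx
    have h3 : l ∣ primorial (x + 2) := hl.dvd_primorial_iff.mpr (by omega)
    have h4 : n₀ ≡ n [MOD l] := (hmod.of_dvd h3).symm
    exact Nat.modEq_iff_dvd.mp h4
  have hpodd : Odd p := by
    rcases Nat.even_or_odd p with h | h
    · exfalso
      have : Even n := by rw [hpq]; exact h.add (even_two_mul q)
      exact (Nat.not_even_iff_odd.mpr hn) this
    · exact h
  constructor
  · by_contra hcon
    have hpL : (p : ℝ) ≤ c * gro x := le_trans (by exact_mod_cast (not_lt.mp hcon)) hL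
    obtain ⟨l, hl, hl3, hlx, hd⟩ := h2 p hp hpodd hpL
    have h3 : (l : ℤ) ∣ 2 * q := by
      have h4 := dvd_add hd (hdiv l hl hlx)
      have h5 : (n₀ : ℤ) - p + (n - n₀) = 2 * q := by rw [hpq]; push_cast; ring
      rwa [h5] at h4
    have h4 : l ∣ 2 * q := by exact_mod_cast h3
    rcases (hl.dvd_mul).mp h4 with h5 | h5
    · have := Nat.le_of_dvd (by norm_num) h5
      omega
    · have : l = q := (Nat.prime_dvd_prime_iff_eq hl hq).mp h5
      omega
  · by_contra hcon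
    have hqL : (q : ℝ) ≤ c * gro x := le_trans (by exact_mod_cast (not_lt.mp hcon)) hL
    obtain ⟨l, hl, hl3, hlx, hd⟩ := h1 q hq hqL
    have h3 : (l : ℤ) ∣ p := by
      have h4 := dvd_add hd (hdiv l hl hlx)
      have h5 : (n₀ : ℤ) - 2 * q + (n - n₀) = p := by rw [hpq]; push_cast; ring
      rwa [h5] at h4
    have h4 : l ∣ p := by exact_mod_cast h3
    have : l = p := (Nat.prime_dvd_prime_iff_eq hl hp).mp h4
    omega

/-- comparison of the growth functions -/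
theorem gro_compare {B c : ℝ} (hB : 1 ≤ B) (hc : 0 < c) : ∀ᶠ x : ℕ in atTop, ∀ T : ℝ, (x : ℝ) ≤ T →
    T ≤ B * x → c / (16 * B) * gro T ≤ ⌊c * gro x⌋₊ := by
  filter_upwards [ev_facts (2 + Real.log B + 2 / c), gro_bounds, eventually_ge_atTop 1,
    ev_facts 1] with x hx hg hx1 hx2
  intro T hT1 hT2
  have hlB : 0 ≤ Real.log B := Real.log_nonneg hB
  have h2c : 0 < 2 / c := by positivity
  obtain ⟨h1, h2, h3, h4⟩ := hx
  obtain ⟨_, _, h3', h4'⟩ := hx2
  rw [one_mul] at h3' h4'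
  have hx0 : (1 : ℝ) ≤ x := by exact_mod_cast hx1
  set X := Real.log x with hX
  set X2 := Real.log X with hX2
  set X3 := Real.log X2 with hX3
  have h1' : 2 ≤ X3 := by linarith
  have hX2' : 2 ≤ X2 := h1'.trans h2
  have hX' : 2 ≤ X := hX2'.trans h3'
  have hxp : (0 : ℝ) < x := by linarith
  have hl2 : Real.log 2 ≤ 1 := by have := Real.log_two_lt_d9; linarith
  have t1 : X ≤ Real.log T := Real.log_le_log hxp hT1
  have t2 : Real.log T ≤ 2 * X := by
    have h5 : Real.log T ≤ Real.log (B * x) := Real.log_le_log (by linarith) hT2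
    rw [Real.log_mul (by linarith) hxp.ne', ← hX] at h5
    linarith
  have t3 : X2 ≤ Real.log (Real.log T) := Real.log_le_log (by linarith) t1
  have t4 : Real.log (Real.log T) ≤ 2 * X2 := by
    have h5 : Real.log (Real.log T) ≤ Real.log (2 * X) := Real.log_le_log (by linarith) t2
    rw [Real.log_mul (by norm_num) (by linarith), ← hX2] at h5
    linarith
  have t5 : Real.log (Real.log (Real.log T)) ≤ 2 * X3 := by
    have h5 : Real.log (Real.log (Real.log T)) ≤ Real.log (2 * X2) := Real.log_le_log (by linarith) t4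
    rw [Real.log_mul (by norm_num) (by linarith), ← hX3] at h5
    linarith
  have t6 : 0 ≤ Real.log (Real.log (Real.log T)) := Real.log_nonneg (by linarith)
  have hgro : gro x = x * X ^ 2 * X3 / X2 ^ 2 := rfl
  have key : gro T ≤ 8 * B * gro x := by
    rw [hgro]
    unfold gro
    have e1 : T * Real.log T ^ 2 * Real.log (Real.log (Real.log T)) ≤
        (B * x) * (2 * X) ^ 2 * (2 * X3) := by
      apply mul_le_mul _ t5 t6 (by positivity)
      apply mul_le_mul hT2 _ (by positivity) (by positivity)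
      exact pow_le_pow_left₀ (by linarith) t2 2
    calc T * Real.log T ^ 2 * Real.log (Real.log (Real.log T)) / Real.log (Real.log T) ^ 2
        ≤ (B * x) * (2 * X) ^ 2 * (2 * X3) / X2 ^ 2 := by
          apply div_le_div₀ (by positivity) e1 (by positivity)
          exact pow_le_pow_left₀ (by linarith) t3 2
      _ = _ := by ring
  have hgx : 2 ≤ c * gro x := by
    have h5 : (2 + Real.log B + 2 / c) ≤ gro x := by linarith [hg.1]
    have h6 : 2 / c ≤ gro x := by linarith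
    rw [div_le_iff₀ hc] at h6
    linarith
  have hfl := Nat.sub_one_lt_floor (c * gro x)
  calc c / (16 * B) * gro T ≤ c / (16 * B) * (8 * B * gro x) :=
        mul_le_mul_of_nonneg_left key (by positivity)
    _ = c * gro x / 2 := by field_simp; ring
    _ ≤ ⌊c * gro x⌋₊ := by linarith

end Pool.Agent.Helper18.Lem
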