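import Pool.Agent.Helper18.Lem.Defs
import Pool.Agent.Helper6.ER2.Final

/-!
LM-G. Upper limit of local obstructions.

`Pool.Agent.Helper6.ER2.primeSieve : StPSL` (definition in `Pool/Agent/Helper6/SW/Defs.lean`): with `V, c₀, c, X₀`, for `X ≥ X₀`, `y ≤ X^c₀`, `S` a set of primes
`3 ≤ q ≤ y`, `r q` not divisible by `q`: at least `c (X / log X) ∏_(q ∈ S) (1 - 1/q)` primes `p ∈ (e^(-V) X, e^V X]` with `q ∤ p - r q` for all `q ∈ S`.
Given odd `n`: `S` = the primes `3 ≤ ℓ ≤ y` not dividing `n`, `r ℓ` = an integer with `2 r ℓ ≡ n mod ℓ` (for instance `r ℓ = (ℓ + 1) / 2 * n`; not divisible by `ℓ`),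
`X = y^(1/c₀)` times a constant so that also `e^(-V) X > y`. A prime `p` in the window with `ℓ ∤ p - r ℓ` for all `ℓ ∈ S` has `n - 2 p` not divisible
by any prime `ℓ ≤ y`: for `ℓ = 2` as `n` is odd; for `ℓ ∣ n` as `ℓ ∤ 2 p` (`p > y ≥ ℓ`); for `ℓ ∈ S` as `ℓ ∣ n - 2p` would give `ℓ ∣ 2 (p - r ℓ)`.
Same for `n - p` and odd `ℓ` with `r ℓ = n`. Choose the exponent `K` a natural number with `e^V X ≤ y^K`.
-/

set_option autoImplicit false

namespace Pool.Agent.Helper18.Lem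

open Finset

/-- a prime in `(y, y^K]` which avoids one nonzero class modulo each prime of `S` -/
theorem limit_key : ∃ K y₀ : ℕ, 0 < K ∧ ∀ y : ℕ, y₀ ≤ y → ∀ (S : Finset ℕ) (r : ℕ → ℤ),
    (∀ q ∈ S, q.Prime ∧ 3 ≤ q ∧ q ≤ y ∧ ¬ (q : ℤ) ∣ r q) →
    ∃ p : ℕ, p.Prime ∧ y < p ∧ p ≤ y ^ K ∧ ∀ q ∈ S, ¬ (q : ℤ) ∣ (p : ℤ) - r q := by
  obtain ⟨V, c₀, c, X₀, hV, hc₀, hc, H⟩ := Pool.Agent.Helper6.ER2.primeSieve
  obtain ⟨a, ha⟩ : ∃ a : ℕ, a = max 2 ⌈1 / c₀⌉₊ := ⟨_, rfl⟩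
  have ha2 : 2 ≤ a := by rw [ha]; exact le_max_left _ _
  have hac : 1 ≤ (a : ℝ) * c₀ := by
    have h1 : 1 / c₀ ≤ (a : ℝ) := by
      refine (Nat.le_ceil _).trans ?_
      rw [ha]
      exact_mod_cast le_max_right _ _
    rw [div_le_iff₀ hc₀] at h1
    exact h1
  refine ⟨a + 1, max 2 (max ⌈Real.exp V⌉₊ ⌈X₀⌉₊), Nat.succ_pos _, ?_⟩
  intro y hy S r hS
  have hy2 : 2 ≤ y := (le_max_left _ _).trans hy
  have hyV : Real.exp V ≤ (y : ℝ) := by
    refine (Nat.le_ceil _).trans ?_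
    exact_mod_cast (le_max_left _ _).trans ((le_max_right _ _).trans hy)
  have hyX : X₀ ≤ (y : ℝ) := by
    refine (Nat.le_ceil _).trans ?_
    exact_mod_cast (le_max_right _ _).trans ((le_max_right _ _).trans hy)
  have hy2' : (2 : ℝ) ≤ (y : ℝ) := by exact_mod_cast hy2
  have hy1 : (1 : ℝ) ≤ (y : ℝ) := by linarith
  have hy0 : (0 : ℝ) < (y : ℝ) := by linarith
  obtain ⟨X, hX⟩ : ∃ X : ℝ, X = (y : ℝ) ^ a := ⟨_, rfl⟩
  have hyle : (y : ℝ) ≤ X := by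
    rw [hX]
    exact le_self_pow₀ hy1 (by omega)
  have hX1 : 1 < X := by linarith
  have hyc : (y : ℝ) ≤ X ^ c₀ := by
    rw [hX, ← Real.rpow_natCast, ← Real.rpow_mul hy0.le]
    calc (y : ℝ) = (y : ℝ) ^ (1 : ℝ) := (Real.rpow_one _).symm
      _ ≤ _ := Real.rpow_le_rpow_of_exponent_le hy1 hac
  have hlow : (y : ℝ) ≤ Real.exp (-V) * X := by
    have h1 : Real.exp V * (y : ℝ) ≤ X := by
      calc Real.exp V * (y : ℝ) ≤ (y : ℝ) * y := mul_le_mul_of_nonneg_right hyV hy0.le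
        _ = (y : ℝ) ^ 2 := by ring
        _ ≤ (y : ℝ) ^ a := pow_le_pow_right₀ hy1 ha2
        _ = X := hX.symm
    calc (y : ℝ) = Real.exp (-V) * (Real.exp V * (y : ℝ)) := by
          rw [← mul_assoc, ← Real.exp_add]
          simp
      _ ≤ _ := mul_le_mul_of_nonneg_left h1 (Real.exp_pos _).le
  have hhigh : Real.exp V * X ≤ (y : ℝ) ^ (a + 1) := by
    rw [pow_succ, ← hX, mul_comm]
    exact mul_le_mul_of_nonneg_left hyV (by linarith)
  have h1 := H X (hyX.trans hyle) y S r hyc hS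
  have h2 : 0 < c * (X / Real.log X) * ∏ q ∈ S, (1 - 1 / (q : ℝ)) := by
    refine mul_pos (mul_pos hc (div_pos (by linarith) (Real.log_pos hX1))) ?_
    refine Finset.prod_pos fun q hq => ?_
    have h3 : (3 : ℝ) ≤ (q : ℝ) := by exact_mod_cast (hS q hq).2.1
    have h4 : 1 / (q : ℝ) ≤ 1 / 3 := one_div_le_one_div_of_le (by norm_num) h3
    linarith
  have h3 := h2.trans_le h1
  rw [Nat.cast_pos, Finset.card_pos] at h3
  obtain ⟨p, hp⟩ := h3
  rw [Finset.mem_filter] at hp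
  obtain ⟨hp1, hp2, hp3⟩ := hp
  unfold Pool.Agent.Helper6.SW.PX at hp1
  rw [Finset.mem_filter, Finset.mem_Icc] at hp1
  refine ⟨p, hp1.2, ?_, ?_, hp3⟩
  · have h4 : (y : ℝ) < (p : ℝ) := hlow.trans_lt hp2
    exact_mod_cast h4
  · have h4 : (p : ℝ) ≤ Real.exp V * X := by
      have h5 := hp1.1.2
      unfold Pool.Agent.Helper6.SW.NX at h5
      exact (Nat.le_floor_iff (by positivity)).1 h5
    have h5 : (p : ℝ) ≤ (y : ℝ) ^ (a + 1) := h4.trans hhigh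
    exact_mod_cast h5

/-- every odd `n` is `2 q + a` with a prime `q ≤ y^K` and `a` free of primes `≤ y` (and `p + a`, `a` free of odd primes `≤ y`) -/
theorem limit : ∃ K y₀ : ℕ, 0 < K ∧ ∀ y : ℕ, y₀ ≤ y → ∀ n : ℕ, Odd n →
    (∃ q : ℕ, q.Prime ∧ y < q ∧ q ≤ y ^ K ∧ ∀ l : ℕ, l.Prime → l ≤ y → ¬ (l : ℤ) ∣ (n : ℤ) - 2 * q) ∧
    (∃ p : ℕ, p.Prime ∧ y < p ∧ p ≤ y ^ K ∧ ∀ l : ℕ, l.Prime → 3 ≤ l → l ≤ y → ¬ (l : ℤ) ∣ (n : ℤ) - p) := by
  obtain ⟨K, y₀, hK, H⟩ := limit_key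
  refine ⟨K, y₀, hK, ?_⟩
  intro y hy n hn
  have hnp : ∀ l p : ℕ, l.Prime → l ≤ y → p.Prime → y < p → ¬ (l : ℤ) ∣ (p : ℤ) := by
    intro l p hl hly hp hyp hd
    have h1 : l ∣ p := by exact_mod_cast hd
    have h2 := (Nat.prime_dvd_prime_iff_eq hl hp).1 h1
    omega
  constructor
  · obtain ⟨q, hq1, hq2, hq3, hq4⟩ := H y hy
      ((Finset.Icc 1 y).filter (fun l => l.Prime ∧ 3 ≤ l ∧ ¬ l ∣ n))
      (fun l => (((l + 1) / 2 : ℕ) : ℤ) * (n : ℤ)) (by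
        intro l hl
        rw [Finset.mem_filter, Finset.mem_Icc] at hl
        obtain ⟨⟨_, h1⟩, h2, h3, h4⟩ := hl
        refine ⟨h2, h3, h1, ?_⟩
        intro hd
        have hlp : Prime (l : ℤ) := Nat.prime_iff_prime_int.1 h2
        rcases hlp.dvd_or_dvd hd with h5 | h5
        · have h6 : l ∣ (l + 1) / 2 := by exact_mod_cast h5
          have h7 := Nat.le_of_dvd (by omega) h6
          omega
        · exact h4 (by exact_mod_cast h5))
    refine ⟨q, hq1, hq2, hq3, ?_⟩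
    intro l hl hly hd
    have hlp : Prime (l : ℤ) := Nat.prime_iff_prime_int.1 hl
    rcases Nat.lt_or_ge l 3 with h3 | h3
    · have h2 : l = 2 := by
        have := hl.two_le
        omega
      subst h2
      obtain ⟨m, hm⟩ := hn
      obtain ⟨t, ht⟩ := hd
      push_cast at ht
      omega
    · have hl2 : ¬ (l : ℤ) ∣ 2 := by
        intro h4
        have h5 : l ∣ 2 := by exact_mod_cast h4
        have := Nat.le_of_dvd (by norm_num) h5
        omega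
      by_cases hln : l ∣ n
      · have h4 : (l : ℤ) ∣ (n : ℤ) := by exact_mod_cast hln
        have h5 : (l : ℤ) ∣ 2 * (q : ℤ) := by
          have h6 := dvd_sub h4 hd
          have e : (n : ℤ) - ((n : ℤ) - 2 * (q : ℤ)) = 2 * (q : ℤ) := by ring
          rwa [e] at h6
        rcases hlp.dvd_or_dvd h5 with h6 | h6
        · exact hl2 h6
        · exact hnp l q hl hly hq1 hq2 h6
      · have hmem : l ∈ (Finset.Icc 1 y).filter (fun l => l.Prime ∧ 3 ≤ l ∧ ¬ l ∣ n) := by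
          rw [Finset.mem_filter, Finset.mem_Icc]
          exact ⟨⟨hl.one_lt.le, hly⟩, hl, h3, hln⟩
        have h4 := hq4 l hmem
        have hodd : l % 2 = 1 := (hl.eq_two_or_odd).resolve_left (by omega)
        have h5 : (2 : ℤ) * (((l + 1) / 2 : ℕ) : ℤ) = (l : ℤ) + 1 := by
          have h6 : 2 * ((l + 1) / 2) = l + 1 := by omega
          exact_mod_cast h6
        have h6 : (l : ℤ) ∣ 2 * ((q : ℤ) - (((l + 1) / 2 : ℕ) : ℤ) * (n : ℤ)) := by
          obtain ⟨t, ht⟩ := hd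
          refine ⟨-t - n, ?_⟩
          linear_combination (-1 : ℤ) * ht - (n : ℤ) * h5
        rcases hlp.dvd_or_dvd h6 with h7 | h7
        · exact hl2 h7
        · exact h4 h7
  · obtain ⟨p, hp1, hp2, hp3, hp4⟩ := H y hy
      ((Finset.Icc 1 y).filter (fun l => l.Prime ∧ 3 ≤ l ∧ ¬ l ∣ n))
      (fun _ => (n : ℤ)) (by
        intro l hl
        rw [Finset.mem_filter, Finset.mem_Icc] at hl
        obtain ⟨⟨_, h1⟩, h2, h3, h4⟩ := hl
        exact ⟨h2, h3, h1, fun h5 => h4 (by exact_mod_cast h5)⟩)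
    refine ⟨p, hp1, hp2, hp3, ?_⟩
    intro l hl h3 hly hd
    by_cases hln : l ∣ n
    · have h4 : (l : ℤ) ∣ (n : ℤ) := by exact_mod_cast hln
      have h5 : (l : ℤ) ∣ (p : ℤ) := by
        have h6 := dvd_sub h4 hd
        have e : (n : ℤ) - ((n : ℤ) - (p : ℤ)) = (p : ℤ) := by ring
        rwa [e] at h6
      exact hnp l p hl hly hp1 hp2 h5
    · have hmem : l ∈ (Finset.Icc 1 y).filter (fun l => l.Prime ∧ 3 ≤ l ∧ ¬ l ∣ n) := by
        rw [Finset.mem_filter, Finset.mem_Icc]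
        exact ⟨⟨hl.one_lt.le, hly⟩, hl, h3, hln⟩
      have h4 := hp4 l hmem
      apply h4
      have e : (p : ℤ) - (n : ℤ) = -((n : ℤ) - (p : ℤ)) := by ring
      rw [e]
      exact (dvd_neg).2 hd

end Pool.Agent.Helper18.Lem
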