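import Pool.Agent.Helper18.Lem.Defs
import Pool.Agent.Helper9.RS.Recip
import Pool.Agent.Helper10.ArithSums

/-!
LM-C. Rankin's bound for smooth numbers.

For `σ = 1 - η / log y ≥ 3/4`: `#(smo L y) ≤ ∑_(k y-smooth) (L/k)^σ = L^σ ∏_(p ≤ y) (1 - p^(-σ))^(-1)`
(Mathlib: `EulerProduct.summable_and_hasSum_smoothNumbers_prod_primesBelow_geometric` with `f n = n^(-σ)`, see the proof of
`Helper13.Om.mertens_prod` in `Pool/Agent/Helper13/Om/BT.lean` for the case `σ = 1`).
`L^σ = L exp(-η log L / log y)`. `(1 - t)^(-1) ≤ exp(t + 3 t^2)` for `0 ≤ t ≤ 2^(-3/4) < 0.6` (from `log(1/(1-t)) ≤ t/(1-t) = t + t^2/(1-t)`),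
`∑_p p^(-2σ) ≤ ∑_n n^(-3/2) ≤ 3`, and `p^(-σ) = p^(-1) exp(η log p / log y) ≤ p^(-1) (1 + (log p / log y) (exp η - 1))` (convexity of exp
on `[0, η]`), so `∑_(p ≤ y) p^(-σ) ≤ ∑ 1/p + (exp η / log y) ∑ log p / p`. Finally `∑_(p ≤ y) 1/p ≤ C log(1 + log y) + C` and
`∑_(p ≤ y) log p / p ≤ log y + C`: see `Pool.Agent.Helper9.RS.recip`, `recip'`, `log_sum` (primes up to `2^(2^s)`; `mert2_rc`, or
`Pool.Agent.Helper9.Omg.mertens_upper`), `Pool/Agent/Helper13/Om/Cheb.lean` (`shell_sum`), ...; any constants will do.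
`y = 2` or small `y` are covered too (`4 η ≤ log y`).
-/

set_option autoImplicit false

namespace Pool.Agent.Helper18.Lem

open Finset

/-- `n ↦ n ^ (-σ)` as a monoid hom -/
private noncomputable def powHom (σ : ℝ) : ℕ →* ℝ where
  toFun n := (n : ℝ) ^ (-σ)
  map_one' := by simp
  map_mul' m n := by
    push_cast
    exact Real.mul_rpow (Nat.cast_nonneg m) (Nat.cast_nonneg n)

private theorem powHom_apply (σ : ℝ) (n : ℕ) : powHom σ n = (n : ℝ) ^ (-σ) := rfl

private theorem pow_small (σ : ℝ) (hσ : 3 / 4 ≤ σ) (p : ℕ) (hp : 2 ≤ p) :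
    (p : ℝ) ^ (-σ) ≤ 2 / 3 := by
  have hp2 : (2 : ℝ) ≤ p := by exact_mod_cast hp
  have hp0 : (0 : ℝ) < p := by linarith
  have hl : 0.69 ≤ Real.log p := by
    have h1 : Real.log 2 ≤ Real.log p := Real.log_le_log (by norm_num) hp2
    have h2 := Real.log_two_gt_d9
    linarith
  have h3 : 1 / 2 ≤ σ * Real.log p := by nlinarith
  rw [Real.rpow_def_of_pos hp0, show Real.log p * -σ = -(σ * Real.log p) by ring, Real.exp_neg]
  have h4 : σ * Real.log p + 1 ≤ Real.exp (σ * Real.log p) := Real.add_one_le_exp _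
  have h5 : (3 / 2 : ℝ) ≤ Real.exp (σ * Real.log p) := by linarith
  calc (Real.exp (σ * Real.log p))⁻¹ ≤ (3 / 2 : ℝ)⁻¹ := inv_anti₀ (by norm_num) h5
    _ = 2 / 3 := by norm_num

private theorem inv_one_sub_le (t : ℝ) (h0 : 0 ≤ t) (h1 : t ≤ 2 / 3) :
    (1 - t)⁻¹ ≤ Real.exp (t + 3 * t ^ 2) := by
  have hpos : 0 < 1 - t := by linarith
  have h2 := Real.one_sub_inv_le_log_of_pos hpos
  have h3 : 1 - (1 - t)⁻¹ = -(t / (1 - t)) := by
    field_simp
    ring
  have h4 : t / (1 - t) ≤ t + 3 * t ^ 2 := by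
    rw [div_le_iff₀ hpos]
    nlinarith [mul_nonneg h0 h0, mul_nonneg (mul_nonneg h0 h0) (by linarith : (0 : ℝ) ≤ 2 / 3 - t)]
  have h5 : (1 - t)⁻¹ = Real.exp (-Real.log (1 - t)) := by
    rw [Real.exp_neg, Real.exp_log hpos]
  rw [h5]
  apply Real.exp_le_exp.mpr
  rw [h3] at h2
  linarith

private theorem rankin (L y : ℕ) (hL : 1 ≤ L) (σ : ℝ) (hσ : 3 / 4 ≤ σ) :
    ((smo L y).card : ℝ) ≤ (L : ℝ) ^ σ * ∏ p ∈ (y + 1).primesBelow, (1 - (p : ℝ) ^ (-σ))⁻¹ := by
  have hL0 : (0 : ℝ) < L := by exact_mod_cast hL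
  have h := (EulerProduct.summable_and_hasSum_smoothNumbers_prod_primesBelow_geometric
    (f := powHom σ) (by
      intro p hp
      rw [powHom_apply, Real.norm_of_nonneg (by positivity)]
      have := pow_small σ hσ p hp.two_le
      linarith) (y + 1)).2
  have h2 := sum_le_hasSum ((smo L y).subtype (· ∈ (y + 1).smoothNumbers))
    (fun m _ => by
      rw [powHom_apply]
      positivity) h
  rw [Finset.sum_subtype_of_mem (fun n => powHom σ n) (by
      intro x hx
      unfold smo at hx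
      rw [Finset.mem_filter, Finset.mem_Icc] at hx
      rw [Nat.mem_smoothNumbers']
      intro p hp hpx
      have := hx.2 p (Nat.mem_primeFactors.2 ⟨hp, hpx, by omega⟩)
      omega)] at h2
  have h3 : ((smo L y).card : ℝ) ≤ (L : ℝ) ^ σ * ∑ k ∈ smo L y, powHom σ k := by
    rw [Finset.mul_sum, Finset.card_eq_sum_ones]
    push_cast
    refine Finset.sum_le_sum fun k hk => ?_
    unfold smo at hk
    rw [Finset.mem_filter, Finset.mem_Icc] at hk
    have hk0 : (0 : ℝ) < k := by exact_mod_cast hk.1.1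
    have hkL : (k : ℝ) ≤ L := by exact_mod_cast hk.1.2
    rw [powHom_apply, Real.rpow_neg hk0.le]
    have h4 : (k : ℝ) ^ σ ≤ (L : ℝ) ^ σ := Real.rpow_le_rpow hk0.le hkL (by linarith)
    have h5 : 0 < (k : ℝ) ^ σ := Real.rpow_pos_of_pos hk0 σ
    calc (1 : ℝ) = (k : ℝ) ^ σ * ((k : ℝ) ^ σ)⁻¹ := (mul_inv_cancel₀ h5.ne').symm
      _ ≤ (L : ℝ) ^ σ * ((k : ℝ) ^ σ)⁻¹ := by gcongr
  refine h3.trans ?_
  gcongr
  exact h2

private theorem recip_sum (y : ℕ) (hy : 2 ≤ y) :
    ∑ p ∈ (y + 1).primesBelow, 1 / (p : ℝ) ≤ Real.log (1 + Real.log y) + 8 := by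
  set k := Nat.log 2 y + 1 with hk
  set s := Nat.log 2 k + 1 with hs
  have hyk : y < 2 ^ k := Nat.lt_pow_succ_log_self (by norm_num) y
  have hks : k < 2 ^ s := Nat.lt_pow_succ_log_self (by norm_num) k
  have h1 : y ≤ 2 ^ 2 ^ s := hyk.le.trans (Nat.pow_le_pow_right (by norm_num) hks.le)
  have h2 : ∑ p ∈ (y + 1).primesBelow, 1 / (p : ℝ) ≤
      ∑ l ∈ Pool.Agent.Helper9.RS.PP 0 (2 ^ 2 ^ s), 1 / (l : ℝ) := by
    apply Finset.sum_le_sum_of_subset_of_nonneg
    · intro p hp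
      rw [Nat.mem_primesBelow] at hp
      unfold Pool.Agent.Helper9.RS.PP
      rw [Finset.mem_filter, Finset.mem_Ioc]
      exact ⟨⟨hp.2.pos, by omega⟩, hp.2⟩
    · intro _ _ _
      positivity
  have h3 := Pool.Agent.Helper9.RS.recip s
  have hl2 := Real.log_two_gt_d9
  have hl2' := Real.log_two_lt_d9
  have hly : Real.log 2 ≤ Real.log y := Real.log_le_log (by norm_num) (by exact_mod_cast hy)
  have h4 : (Nat.log 2 y : ℝ) * Real.log 2 ≤ Real.log y := by
    rw [← Real.log_pow]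
    apply Real.log_le_log (by positivity)
    exact_mod_cast Nat.pow_log_le_self 2 (by omega)
  have h5 : (k : ℝ) ≤ 2 * Real.log y + 1 := by
    rw [hk]
    push_cast
    nlinarith [(Nat.cast_nonneg (Nat.log 2 y) : (0 : ℝ) ≤ (Nat.log 2 y : ℝ))]
  have h6 : (2 : ℝ) ^ s ≤ 2 * k := by
    have h7 : 2 ^ (Nat.log 2 k) ≤ k := Nat.pow_log_le_self 2 (by omega)
    have h8 : (2 : ℝ) ^ (Nat.log 2 k) ≤ k := by exact_mod_cast h7
    rw [hs, pow_succ]
    linarith
  have h7 : (s : ℝ) * Real.log 2 ≤ Real.log (1 + Real.log y) + 2 := by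
    rw [← Real.log_pow]
    have h8 : (2 : ℝ) ^ s ≤ 4 * (1 + Real.log y) := by linarith
    calc Real.log (2 ^ s) ≤ Real.log (4 * (1 + Real.log y)) := Real.log_le_log (by positivity) h8
      _ = Real.log 4 + Real.log (1 + Real.log y) :=
          Real.log_mul (by norm_num) (by linarith)
      _ ≤ Real.log (1 + Real.log y) + 2 := by
          have h9 : Real.log 4 = 2 * Real.log 2 := by
            rw [show (4 : ℝ) = 2 ^ 2 by norm_num, Real.log_pow]
            norm_num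
          linarith
  linarith

private theorem log_div_sum (y : ℕ) (hy : 2 ≤ y) :
    ∑ p ∈ (y + 1).primesBelow, Real.log p / (p : ℝ) ≤ 3 * Real.log y := by
  have h1 := Pool.Agent.Helper10.mertens_upper y (by omega)
  have h2 : (Icc 1 y).filter Nat.Prime = (y + 1).primesBelow := by
    ext p
    rw [Finset.mem_filter, Finset.mem_Icc, Nat.mem_primesBelow]
    constructor
    · rintro ⟨h, h'⟩
      exact ⟨by omega, h'⟩
    · rintro ⟨h, h'⟩
      exact ⟨⟨h'.pos, by omega⟩, h'⟩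
  rw [h2] at h1
  have hly : Real.log 2 ≤ Real.log y := Real.log_le_log (by norm_num) (by exact_mod_cast hy)
  have h9 : Real.log 4 = 2 * Real.log 2 := by
    rw [show (4 : ℝ) = 2 ^ 2 by norm_num, Real.log_pow]
    norm_num
  linarith

private theorem pow_le_lin (y : ℕ) (hy : 2 ≤ y) (η : ℝ) (p : ℕ)
    (hp : 1 ≤ p) (hpy : p ≤ y) :
    (p : ℝ) ^ (-(1 - η / Real.log y)) ≤
      1 / p + (Real.exp η / Real.log y) * (Real.log p / p) := by
  have hp0 : (0 : ℝ) < p := by exact_mod_cast hp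
  have hly : 0 < Real.log y := Real.log_pos (by exact_mod_cast hy)
  have hlp : 0 ≤ Real.log p := Real.log_natCast_nonneg p
  have hlpy : Real.log p ≤ Real.log y := Real.log_le_log hp0 (by exact_mod_cast hpy)
  set lam := Real.log p / Real.log y with hlam
  have hlam0 : 0 ≤ lam := div_nonneg hlp hly.le
  have hlam1 : lam ≤ 1 := (div_le_one hly).2 hlpy
  have h1 : (p : ℝ) ^ (-(1 - η / Real.log y)) = 1 / p * Real.exp (lam * η) := by
    rw [Real.rpow_def_of_pos hp0]
    have h2 : Real.log p * -(1 - η / Real.log y) = -Real.log p + lam * η := by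
      rw [hlam]
      field_simp
      ring
    rw [h2, Real.exp_add, Real.exp_neg, Real.exp_log hp0, one_div]
  have h3 : Real.exp (lam * η) ≤ 1 + lam * Real.exp η := by
    have h4 := convexOn_exp.2 (Set.mem_univ (0 : ℝ)) (Set.mem_univ η)
      (by linarith : (0 : ℝ) ≤ 1 - lam) hlam0 (by ring)
    simp only [smul_eq_mul, mul_zero, zero_add, Real.exp_zero, mul_one] at h4
    linarith
  rw [h1]
  calc 1 / (p : ℝ) * Real.exp (lam * η) ≤ 1 / p * (1 + lam * Real.exp η) := by gcongr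
    _ = 1 / p + (Real.exp η / Real.log y) * (Real.log p / p) := by
        rw [hlam]
        field_simp

theorem smooth_count : ∃ C : ℝ, 0 < C ∧ ∀ L y : ℕ, 1 ≤ L → 2 ≤ y → ∀ η : ℝ, 0 ≤ η → 4 * η ≤ Real.log y →
    ((smo L y).card : ℝ) ≤ L * Real.exp (-(η * Real.log L / Real.log y)) *
      Real.exp (C * Real.exp η) * (1 + Real.log y) ^ C := by
  have hsum : Summable (fun n : ℕ => (n : ℝ) ^ (-(3 / 2) : ℝ)) :=
    Real.summable_nat_rpow.2 (by norm_num)
  set B := ∑' n : ℕ, (n : ℝ) ^ (-(3 / 2) : ℝ) with hB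
  have hB0 : 0 ≤ B := tsum_nonneg fun n => by positivity
  refine ⟨11 + 3 * B, by linarith, ?_⟩
  intro L y hL hy η h0 h4
  have hL0 : (0 : ℝ) < L := by exact_mod_cast hL
  have hly : 0 < Real.log y := Real.log_pos (by exact_mod_cast hy)
  set σ := 1 - η / Real.log y with hσ
  have hσ1 : 3 / 4 ≤ σ := by
    have : η / Real.log y ≤ 1 / 4 := by
      rw [div_le_iff₀ hly]
      linarith
    rw [hσ]
    linarith
  have h1 := rankin L y hL σ hσ1
  have h2 : (L : ℝ) ^ σ = L * Real.exp (-(η * Real.log L / Real.log y)) := by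
    rw [Real.rpow_def_of_pos hL0]
    have h3 : Real.log L * σ = Real.log L + -(η * Real.log L / Real.log y) := by
      rw [hσ]
      field_simp
      ring
    rw [h3, Real.exp_add, Real.exp_log hL0]
  have hexp1 : 1 ≤ Real.exp η := Real.one_le_exp h0
  have h5 : ∏ p ∈ (y + 1).primesBelow, (1 - (p : ℝ) ^ (-σ))⁻¹ ≤
      Real.exp (∑ p ∈ (y + 1).primesBelow, ((p : ℝ) ^ (-σ) + 3 * ((p : ℝ) ^ (-σ)) ^ 2)) := by
    rw [Real.exp_sum]
    apply Finset.prod_le_prod
    · intro p hp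
      have := pow_small σ hσ1 p (Nat.prime_of_mem_primesBelow hp).two_le
      rw [inv_nonneg]
      linarith
    · intro p hp
      exact inv_one_sub_le _ (by positivity)
        (pow_small σ hσ1 p (Nat.prime_of_mem_primesBelow hp).two_le)
  have h6 : ∑ p ∈ (y + 1).primesBelow, (p : ℝ) ^ (-σ) ≤
      Real.log (1 + Real.log y) + 8 + 3 * Real.exp η := by
    have h7 : ∑ p ∈ (y + 1).primesBelow, (p : ℝ) ^ (-σ) ≤
        ∑ p ∈ (y + 1).primesBelow, (1 / (p : ℝ) + (Real.exp η / Real.log y) * (Real.log p / p)) := by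
      refine Finset.sum_le_sum fun p hp => ?_
      have hp' := Nat.mem_primesBelow.1 hp
      exact pow_le_lin y hy η p hp'.2.pos (by omega)
    rw [Finset.sum_add_distrib, ← Finset.mul_sum] at h7
    have h8 : Real.exp η / Real.log y * ∑ p ∈ (y + 1).primesBelow, Real.log p / (p : ℝ) ≤
        Real.exp η / Real.log y * (3 * Real.log y) := by
      have := log_div_sum y hy
      gcongr
    have h9 : Real.exp η / Real.log y * (3 * Real.log y) = 3 * Real.exp η := by
      field_simp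
    have h10 := recip_sum y hy
    linarith
  have h11 : ∑ p ∈ (y + 1).primesBelow, ((p : ℝ) ^ (-σ)) ^ 2 ≤ B := by
    have h12 : ∑ p ∈ (y + 1).primesBelow, ((p : ℝ) ^ (-σ)) ^ 2 ≤
        ∑ p ∈ (y + 1).primesBelow, (p : ℝ) ^ (-(3 / 2) : ℝ) := by
      refine Finset.sum_le_sum fun p hp => ?_
      have hp1 : (1 : ℝ) ≤ p := by
        exact_mod_cast (Nat.prime_of_mem_primesBelow hp).pos
      rw [← Real.rpow_natCast, ← Real.rpow_mul (by linarith)]
      apply Real.rpow_le_rpow_of_exponent_le hp1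
      push_cast
      linarith
    exact h12.trans (hsum.sum_le_tsum _ fun n _ => by positivity)
  have h13 : ∑ p ∈ (y + 1).primesBelow, ((p : ℝ) ^ (-σ) + 3 * ((p : ℝ) ^ (-σ)) ^ 2) ≤
      (11 + 3 * B) * Real.exp η + Real.log (1 + Real.log y) := by
    rw [Finset.sum_add_distrib, ← Finset.mul_sum]
    nlinarith
  have h14 : Real.exp ((11 + 3 * B) * Real.exp η + Real.log (1 + Real.log y)) ≤
      Real.exp ((11 + 3 * B) * Real.exp η) * (1 + Real.log y) ^ (11 + 3 * B) := by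
    rw [Real.exp_add, Real.exp_log (by linarith)]
    gcongr
    calc 1 + Real.log y = (1 + Real.log y) ^ (1 : ℝ) := (Real.rpow_one _).symm
      _ ≤ (1 + Real.log y) ^ (11 + 3 * B) :=
          Real.rpow_le_rpow_of_exponent_le (by linarith) (by linarith)
  calc ((smo L y).card : ℝ) ≤ (L : ℝ) ^ σ * ∏ p ∈ (y + 1).primesBelow, (1 - (p : ℝ) ^ (-σ))⁻¹ := h1
    _ ≤ (L : ℝ) ^ σ * (Real.exp ((11 + 3 * B) * Real.exp η) * (1 + Real.log y) ^ (11 + 3 * B)) := by
        gcongr
        exact h5.trans ((Real.exp_le_exp.mpr h13).trans h14)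
    _ = L * Real.exp (-(η * Real.log L / Real.log y)) *
      Real.exp ((11 + 3 * B) * Real.exp η) * (1 + Real.log y) ^ (11 + 3 * B) := by
        rw [h2]
        ring

end Pool.Agent.Helper18.Lem
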