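import Pool.Agent.Helper18.Lem.Surv
import Pool.Agent.Helper18.Lem.Smooth
import Pool.Agent.Helper18.Lem.Comb

/-! The covering step with given parameters. -/

set_option autoImplicit false

namespace Pool.Agent.Helper18.Lem

open Finset

/-- the targets: `2 q` for primes `q ≤ L` and the odd primes `p ≤ L` -/
def tgt (L : ℕ) : Finset ℕ :=
  ((Icc 1 L).filter Nat.Prime).image (fun q => 2 * q) ∪ (Icc 3 L).filter Nat.Prime

theorem small_prod (y : ℕ) (hy : 2 ≤ y) :
    ∏ p ∈ (Icc 3 y).filter Nat.Prime, (1 - 1 / (p : ℝ)) ≤ 2 / Real.log y := by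
  have h := Helper13.Om.mertens_prod (y + 1) (by omega)
  have he : (y + 1).primesBelow = insert 2 ((Icc 3 y).filter Nat.Prime) := by
    ext p
    rw [Nat.mem_primesBelow, mem_insert, mem_filter, mem_Icc]
    constructor
    · rintro ⟨h1, h2⟩
      have := h2.two_le
      by_cases h3 : p = 2
      · left; exact h3
      · right; exact ⟨⟨by omega, by omega⟩, h2⟩
    · rintro (h1 | ⟨h1, h2⟩)
      · subst h1; exact ⟨by omega, Nat.prime_two⟩
      · exact ⟨by omega, h2⟩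
  rw [he, Finset.prod_insert (by simp)] at h
  have hl : 0 < Real.log y := Real.log_pos (by exact_mod_cast hy)
  have hl2 : Real.log y ≤ Real.log ((y + 1 : ℕ) : ℝ) :=
    Real.log_le_log (by positivity) (by push_cast; linarith)
  have h3 : 1 / Real.log ((y + 1 : ℕ) : ℝ) ≤ 1 / Real.log y := one_div_le_one_div_of_le hl hl2
  have h4 : (1 - 1 / ((2 : ℕ) : ℝ)) = 1 / 2 := by norm_num
  rw [h4] at h
  have h5 : 2 / Real.log (y : ℝ) = 2 * (1 / Real.log y) := by ring
  rw [h5]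
  linarith

theorem surv_tgt {C : ℝ} (hC : ∀ L y z e : ℕ, 1 ≤ e → e ≤ 2 → 2 ≤ z → z ≤ L →
    (((Icc 1 L).filter (fun q => q.Prime ∧ e < q ∧
      ∀ p ∈ (q - e).primeFactors, ¬ (y < p ∧ p ≤ z))).card : ℝ) ≤
      (smo L y).card + C * (L * (1 + Real.log (L / z)) / (Real.log z) ^ 2))
    (L y z : ℕ) (hz : 2 ≤ z) (hL : z ≤ L) :
    (((tgt L).filter (fun t => ∀ p ∈ (Ioc y z).filter Nat.Prime, t % p ≠ 2 % p)).card : ℝ) ≤
      2 * ((smo L y).card + C * (L * (1 + Real.log (L / z)) / (Real.log z) ^ 2)) := by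
  classical
  have h1 := hC L y z 1 le_rfl (by norm_num) hz hL
  have h2 := hC L y z 2 (by norm_num) le_rfl hz hL
  set A := (Icc 1 L).filter (fun q => q.Prime ∧ 1 < q ∧
      ∀ p ∈ (q - 1).primeFactors, ¬ (y < p ∧ p ≤ z)) with hA
  set B := (Icc 1 L).filter (fun q => q.Prime ∧ 2 < q ∧
      ∀ p ∈ (q - 2).primeFactors, ¬ (y < p ∧ p ≤ z)) with hB
  have hsub : (tgt L).filter (fun t => ∀ p ∈ (Ioc y z).filter Nat.Prime, t % p ≠ 2 % p) ⊆
      A.image (fun q => 2 * q) ∪ B := by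
    intro t ht
    rw [mem_filter] at ht
    obtain ⟨ht1, ht2⟩ := ht
    unfold tgt at ht1
    rw [mem_union] at ht1 ⊢
    rcases ht1 with ht1 | ht1
    · left
      rw [mem_image] at ht1 ⊢
      obtain ⟨q, hq, rfl⟩ := ht1
      rw [mem_filter] at hq
      refine ⟨q, ?_, rfl⟩
      rw [hA, mem_filter]
      refine ⟨hq.1, hq.2, hq.2.one_lt, ?_⟩
      intro p hp hpz
      have hpp := Nat.prime_of_mem_primeFactors hp
      have hpd := Nat.dvd_of_mem_primeFactors hp
      apply ht2 p (by rw [mem_filter, mem_Ioc]; exact ⟨hpz, hpp⟩)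
      have h3 : 2 * 1 ≡ 2 * q [MOD p] :=
        Nat.ModEq.mul_left 2 ((Nat.modEq_iff_dvd' hq.2.one_lt.le).mpr hpd)
      exact h3.symm
    · right
      rw [mem_filter, mem_Icc] at ht1
      rw [hB, mem_filter, mem_Icc]
      refine ⟨⟨by omega, by omega⟩, ht1.2, by omega, ?_⟩
      intro p hp hpz
      have hpp := Nat.prime_of_mem_primeFactors hp
      have hpd := Nat.dvd_of_mem_primeFactors hp
      apply ht2 p (by rw [mem_filter, mem_Ioc]; exact ⟨hpz, hpp⟩)
      have h3 : 2 ≡ t [MOD p] := (Nat.modEq_iff_dvd' (by omega)).mpr hpd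
      exact h3.symm
  have h3 : (((tgt L).filter (fun t => ∀ p ∈ (Ioc y z).filter Nat.Prime, t % p ≠ 2 % p)).card : ℝ) ≤
      (A.card : ℝ) + B.card := by
    have h4 := (Finset.card_le_card hsub).trans (Finset.card_union_le _ _)
    have h5 : (A.image (fun q => 2 * q)).card ≤ A.card := Finset.card_image_le
    exact_mod_cast h4.trans (Nat.add_le_add_right h5 _)
  linarith

theorem lg_card (x z : ℕ) : (Nat.primeCounting x : ℝ) - z ≤ (((Ioc z x).filter Nat.Prime).card : ℝ) := by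
  have h1 : Nat.primesLE x ⊆ (Ioc z x).filter Nat.Prime ∪ Icc 1 z := by
    intro p hp
    rw [Nat.mem_primesLE] at hp
    rw [mem_union, mem_filter, mem_Ioc, mem_Icc]
    by_cases h : z < p
    · left; exact ⟨⟨h, hp.1⟩, hp.2⟩
    · right; exact ⟨hp.2.pos, by omega⟩
  have h2 := (Finset.card_le_card h1).trans (Finset.card_union_le _ _)
  rw [Nat.primesLE_card_eq_primeCounting, Nat.card_Icc] at h2
  have h3 : (Nat.primeCounting x : ℝ) ≤ (((Ioc z x).filter Nat.Prime).card : ℝ) + ((z + 1 - 1 : ℕ) : ℝ) := by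
    exact_mod_cast h2
  have h4 : (((z + 1 - 1 : ℕ)) : ℝ) = z := by simp
  linarith

/-- the covering step -/
theorem step {C : ℝ} (hC : ∀ L y z e : ℕ, 1 ≤ e → e ≤ 2 → 2 ≤ z → z ≤ L →
    (((Icc 1 L).filter (fun q => q.Prime ∧ e < q ∧
      ∀ p ∈ (q - e).primeFactors, ¬ (y < p ∧ p ≤ z))).card : ℝ) ≤
      (smo L y).card + C * (L * (1 + Real.log (L / z)) / (Real.log z) ^ 2))
    (x y z L : ℕ) (hy : 2 ≤ y) (hyz : y ≤ z) (hzx : z ≤ x) (hL : z ≤ L)
    (h : 2 * ((smo L y).card + C * (L * (1 + Real.log (L / z)) / (Real.log z) ^ 2)) *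
      (2 / Real.log y) ≤ (Nat.primeCounting x : ℝ) - z) :
    ∃ n₀ : ℕ, n₀ < primorial (x + 2) ∧ Odd n₀ ∧
      ∀ t ∈ tgt L, ∃ p, p.Prime ∧ 3 ≤ p ∧ p ≤ x ∧ n₀ % p = t % p := by
  refine assemble x 2 (tgt L) ((Icc 3 y).filter Nat.Prime) ((Ioc y z).filter Nat.Prime)
    ((Ioc z x).filter Nat.Prime) ?_ ?_ ?_ ?_ ?_ ?_ ?_
  · intro p hp
    rw [mem_filter, mem_Icc] at hp
    exact ⟨hp.2, hp.1.1, by omega⟩
  · intro p hp
    rw [mem_filter, mem_Ioc] at hp
    exact ⟨hp.2, by omega, by omega⟩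
  · intro p hp
    rw [mem_filter, mem_Ioc] at hp
    exact ⟨hp.2, by omega, by omega⟩
  · rw [Finset.disjoint_left]
    intro p hp hp2
    rw [mem_filter, mem_Icc] at hp
    rw [mem_filter, mem_Ioc] at hp2
    omega
  · rw [Finset.disjoint_left]
    intro p hp hp2
    rw [mem_filter, mem_Icc] at hp
    rw [mem_filter, mem_Ioc] at hp2
    omega
  · rw [Finset.disjoint_left]
    intro p hp hp2
    rw [mem_filter, mem_Ioc] at hp
    rw [mem_filter, mem_Ioc] at hp2
    omega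
  · have h1 := surv_tgt hC L y z (by omega) hL
    have h2 := small_prod y hy
    have h3 : 0 ≤ ∏ p ∈ (Icc 3 y).filter Nat.Prime, (1 - 1 / (p : ℝ)) := by
      apply Finset.prod_nonneg
      intro p hp
      rw [mem_filter, mem_Icc] at hp
      have : (1 : ℝ) ≤ p := by exact_mod_cast hp.2.pos
      have h4 : 1 / (p : ℝ) ≤ 1 := by
        rw [div_le_one (by linarith)]
        exact this
      linarith
    have h4 : (0 : ℝ) ≤ 2 * ((smo L y).card + C * (L * (1 + Real.log (L / z)) / (Real.log z) ^ 2)) :=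
      le_trans (Nat.cast_nonneg _) h1
    exact (mul_le_mul h1 h2 h3 h4).trans (h.trans (lg_card x z))

end Pool.Agent.Helper18.Lem
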