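import Pool.Agent.Helper18.Lem.Defs

/-!
LM-B. Averages of `n / φ(n)`.

* `one_le_rho`: `φ(n) ≤ n`, `φ(n) > 0` for `n ≥ 1`.
* `rho_mul_le`: `φ(a) φ(b) ≤ φ(a b)` (`Nat.totient_super_multiplicative`).
* `sum_rho_sq`: `n / φ(n) = ∏_(p ∣ n) (1 - 1/p)^(-1)` (`Nat.totient_mul_prod_primeFactors`-type lemmas in Mathlib, or
  `Nat.totient_eq_mul_prod_factors`), so `rho n ^ 2 = ∏_(p ∣ n) (1 - 1/p)^(-2) ≤ ∏_(p ∣ n) (1 + 6/p)`
  (`(1 - t)^(-2) ≤ 1 + 6 t` for `0 ≤ t ≤ 1/2`: `1 ≤ (1 + 6t)(1 - 2t + t^2)`, i.e. `0 ≤ 4t - 11t^2 + 6t^3 = t (1 - 2t)(4 - 3t)`.)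
  Expand: `∏_(p ∣ n) (1 + 6/p) = ∑_(T ⊆ primeFactors n) ∏_(p ∈ T) 6/p` (`Finset.prod_one_add`), exchange the sums: for fixed `T` the
  number of `n ≤ H` divisible by `∏ T` is `≤ H / ∏ T`, so the sum is `≤ H ∑_(T ⊆ primes ≤ H) ∏_(p ∈ T) 6/p^2
  = H ∏_(p ≤ H) (1 + 6/p^2) ≤ H exp(6 ∑ 1/p^2) ≤ H exp 6`-like constant (`∑_(2 ≤ n ≤ H) 1/n^2 ≤ 1`).
* `sum_rho_div`: dyadic blocks: for `2^j ≤ s < 2^(j+1)`, `∑ rho s / s ≤ 2^(-j) ∑_(s ≤ 2^(j+1)) rho s ^ 2 ≤ 2 C` (`rho ≤ rho^2`), and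
  `j ≤ Nat.log 2 S`; `Nat.log 2 S ≤ log S / log 2 ≤ 2 log S`. (Or directly as in `sum_rho_sq`.)
-/

set_option autoImplicit false

namespace Pool.Agent.Helper18.Lem

open Finset

theorem one_le_rho {n : ℕ} (hn : 0 < n) : 1 ≤ rho n := by
  unfold rho
  have h1 : 0 < n.totient := Nat.totient_pos.2 hn
  rw [one_le_div (by exact_mod_cast h1)]
  exact_mod_cast Nat.totient_le n

theorem rho_mul_le {a b : ℕ} (ha : 0 < a) (hb : 0 < b) : rho (a * b) ≤ rho a * rho b := by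
  unfold rho
  have h1 : 0 < a.totient := Nat.totient_pos.2 ha
  have h2 : 0 < b.totient := Nat.totient_pos.2 hb
  have h3 : 0 < (a * b).totient := Nat.totient_pos.2 (Nat.mul_pos ha hb)
  rw [div_mul_div_comm]
  push_cast
  refine div_le_div_of_nonneg_left (by positivity) (by positivity) ?_
  exact_mod_cast Nat.totient_super_multiplicative a b

theorem rho_two : rho 2 = 2 := by
  unfold rho
  rw [Nat.totient_two]
  norm_num

theorem rho_one : rho 1 = 1 := by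
  unfold rho
  rw [Nat.totient_one]
  norm_num

private theorem rho_eq {n : ℕ} (hn : 0 < n) :
    rho n = ∏ p ∈ n.primeFactors, (1 - (p : ℝ)⁻¹)⁻¹ := by
  unfold rho
  have h1 : ((n.totient : ℚ) : ℝ) = ((n * ∏ p ∈ n.primeFactors, (1 - (p : ℚ)⁻¹) : ℚ) : ℝ) := by
    rw [Nat.totient_eq_mul_prod_factors n]
  push_cast at h1
  have hn' : (n : ℝ) ≠ 0 := by exact_mod_cast hn.ne'
  rw [h1, Finset.prod_inv_distrib, div_mul_eq_div_div, div_self hn', one_div]

private theorem fac_le {p : ℕ} (hp : p.Prime) :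
    ((1 - (p : ℝ)⁻¹)⁻¹) ^ 2 ≤ 1 + 6 * (p : ℝ)⁻¹ := by
  have h2 : (2 : ℝ) ≤ p := by exact_mod_cast hp.two_le
  set t : ℝ := (p : ℝ)⁻¹ with ht
  have ht0 : 0 < t := by positivity
  have ht1 : t ≤ 1 / 2 := by
    rw [ht, one_div]
    exact inv_anti₀ (by norm_num) h2
  have h3 : 0 < 1 - t := by linarith
  rw [inv_pow, inv_le_comm₀ (by positivity) (by positivity), inv_eq_one_div,
    div_le_iff₀ (by positivity)]
  nlinarith [mul_nonneg (mul_nonneg ht0.le (by linarith : (0 : ℝ) ≤ 1 - 2 * t))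
    (by linarith : (0 : ℝ) ≤ 4 - 3 * t)]

private theorem rho_sq_le {n : ℕ} (hn : 0 < n) :
    rho n ^ 2 ≤ ∑ T ∈ n.primeFactors.powerset, ∏ p ∈ T, (6 * (p : ℝ)⁻¹) := by
  rw [rho_eq hn, ← Finset.prod_pow, ← Finset.prod_one_add]
  exact Finset.prod_le_prod (fun p _ => sq_nonneg _)
    (fun p hp => fac_le (Nat.prime_of_mem_primeFactors hp))

theorem sum_rho_sq : ∃ C : ℝ, 0 < C ∧ ∀ H : ℕ, ∑ h ∈ Icc 1 H, rho h ^ 2 ≤ C * H := by
  set Z : ℝ := ∑' n : ℕ, 1 / (n : ℝ) ^ 2 with hZ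
  have hsum : Summable (fun n : ℕ => 1 / (n : ℝ) ^ 2) :=
    Real.summable_one_div_nat_pow.2 (by norm_num)
  refine ⟨Real.exp (6 * Z), Real.exp_pos _, fun H => ?_⟩
  set PP : Finset ℕ := (Icc 1 H).filter Nat.Prime with hPP
  have hsub : ∀ n ∈ Icc 1 H, n.primeFactors ⊆ PP := by
    intro n hn p hp
    rw [Finset.mem_Icc] at hn
    rw [hPP, Finset.mem_filter, Finset.mem_Icc]
    have h1 := Nat.prime_of_mem_primeFactors hp
    have h2 := Nat.le_of_dvd (by omega) (Nat.dvd_of_mem_primeFactors hp)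
    exact ⟨⟨h1.one_lt.le, by omega⟩, h1⟩
  have hg0 : ∀ T : Finset ℕ, 0 ≤ ∏ p ∈ T, (6 * (p : ℝ)⁻¹) :=
    fun T => Finset.prod_nonneg (fun p _ => by positivity)
  calc ∑ h ∈ Icc 1 H, rho h ^ 2
      ≤ ∑ h ∈ Icc 1 H, ∑ T ∈ h.primeFactors.powerset, ∏ p ∈ T, (6 * (p : ℝ)⁻¹) := by
        refine Finset.sum_le_sum (fun n hn => rho_sq_le ?_)
        rw [Finset.mem_Icc] at hn
        omega
    _ ≤ ∑ h ∈ Icc 1 H, ∑ T ∈ PP.powerset,
          (if (∏ p ∈ T, p) ∣ h then ∏ p ∈ T, (6 * (p : ℝ)⁻¹) else 0) := by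
        refine Finset.sum_le_sum (fun n hn => ?_)
        refine le_trans (Finset.sum_le_sum (g := fun T =>
          (if (∏ p ∈ T, p) ∣ n then ∏ p ∈ T, (6 * (p : ℝ)⁻¹) else 0)) ?_)
          (Finset.sum_le_sum_of_subset_of_nonneg
            (Finset.powerset_mono.2 (hsub n hn)) ?_)
        · intro T hT
          rw [Finset.mem_powerset] at hT
          rw [if_pos]
          refine Finset.prod_primes_dvd n ?_ ?_
          · intro p hp
            exact (Nat.prime_of_mem_primeFactors (hT hp)).prime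
          · intro p hp
            exact Nat.dvd_of_mem_primeFactors (hT hp)
        · intro T _ _
          split_ifs
          · exact hg0 T
          · exact le_rfl
    _ = ∑ T ∈ PP.powerset, ∑ h ∈ Icc 1 H,
          (if (∏ p ∈ T, p) ∣ h then ∏ p ∈ T, (6 * (p : ℝ)⁻¹) else 0) := Finset.sum_comm
    _ ≤ ∑ T ∈ PP.powerset, (∏ p ∈ T, (6 * (1 / (p : ℝ) ^ 2))) * (H : ℝ) := by
        refine Finset.sum_le_sum (fun T hT => ?_)
        rw [Finset.mem_powerset] at hT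
        rw [← Finset.sum_filter, Finset.sum_const, nsmul_eq_mul]
        have hpos : ∀ p ∈ T, 0 < p := fun p hp => by
          have := hT hp
          rw [hPP, Finset.mem_filter] at this
          exact this.2.pos
        have hd : 0 < ∏ p ∈ T, p := Finset.prod_pos hpos
        have hc : ((Icc 1 H).filter (fun h => (∏ p ∈ T, p) ∣ h)).card = H / ∏ p ∈ T, p := by
          have := Nat.Ioc_filter_dvd_card_eq_div H (∏ p ∈ T, p)
          rw [← this]
          rfl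
        rw [hc]
        have h1 : ((H / ∏ p ∈ T, p : ℕ) : ℝ) ≤ (H : ℝ) / ((∏ p ∈ T, p : ℕ) : ℝ) := Nat.cast_div_le
        refine le_trans (mul_le_mul_of_nonneg_right h1 (hg0 T)) (le_of_eq ?_)
        have h2 : ∏ p ∈ T, (6 * (1 / (p : ℝ) ^ 2)) =
            (∏ p ∈ T, (6 * (p : ℝ)⁻¹)) * (∏ p ∈ T, (p : ℝ))⁻¹ := by
          rw [← Finset.prod_inv_distrib, ← Finset.prod_mul_distrib]
          refine Finset.prod_congr rfl (fun p _ => ?_)
          rw [one_div, sq, mul_inv]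
          ring
        rw [h2]
        push_cast
        ring
    _ = (∏ p ∈ PP, (1 + 6 * (1 / (p : ℝ) ^ 2))) * (H : ℝ) := by
        rw [← Finset.sum_mul, Finset.prod_one_add]
    _ ≤ Real.exp (6 * Z) * H := by
        refine mul_le_mul_of_nonneg_right ?_ (Nat.cast_nonneg _)
        calc ∏ p ∈ PP, (1 + 6 * (1 / (p : ℝ) ^ 2))
            ≤ ∏ p ∈ PP, Real.exp (6 * (1 / (p : ℝ) ^ 2)) := by
              refine Finset.prod_le_prod (fun p _ => by positivity) (fun p _ => ?_)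
              rw [add_comm]
              exact Real.add_one_le_exp _
          _ = Real.exp (∑ p ∈ PP, 6 * (1 / (p : ℝ) ^ 2)) := (Real.exp_sum _ _).symm
          _ ≤ Real.exp (6 * Z) := by
              refine Real.exp_le_exp.2 ?_
              rw [← Finset.mul_sum]
              refine mul_le_mul_of_nonneg_left ?_ (by norm_num)
              exact hsum.sum_le_tsum PP (fun n _ => by positivity)

theorem sum_rho_div : ∃ C : ℝ, 0 < C ∧ ∀ S : ℕ, 1 ≤ S →
    ∑ s ∈ Icc 1 S, rho s / s ≤ C * (1 + Real.log S) := by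
  obtain ⟨C, hC, hCb⟩ := sum_rho_sq
  have hA : ∀ S : ℕ, ∑ s ∈ Icc 1 S, rho s ≤ C * S := by
    intro S
    refine le_trans (Finset.sum_le_sum (fun s hs => ?_)) (hCb S)
    rw [Finset.mem_Icc] at hs
    have h1 := one_le_rho (n := s) (by omega)
    nlinarith
  have key : ∀ S : ℕ, ∑ s ∈ Icc 1 S, rho s / s ≤
      C * (harmonic S : ℝ) + (∑ s ∈ Icc 1 S, rho s) / (S + 1) := by
    intro S
    induction S with
    | zero => simp
    | succ S ih =>
      rw [Finset.sum_Icc_succ_top (by omega), Finset.sum_Icc_succ_top (by omega), harmonic_succ]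
      have h1 := hA (S + 1)
      rw [Finset.sum_Icc_succ_top (by omega)] at h1
      set A : ℝ := ∑ s ∈ Icc 1 S, rho s
      set a : ℝ := rho (S + 1)
      push_cast at h1 ⊢
      have hS : (0 : ℝ) < (S : ℝ) + 1 := by positivity
      have hS2 : (0 : ℝ) < (S : ℝ) + 1 + 1 := by positivity
      have h2 : (A + a) / ((S : ℝ) + 1) - (A + a) / ((S : ℝ) + 1 + 1) ≤ C * ((S : ℝ) + 1)⁻¹ := by
        rw [div_sub_div _ _ hS.ne' hS2.ne', ← div_eq_mul_inv, div_le_div_iff₀ (by positivity) hS]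
        nlinarith [mul_pos hS hS2, mul_nonneg hC.le hS.le]
      have h3 : A / ((S : ℝ) + 1) + a / ((S : ℝ) + 1) = (A + a) / ((S : ℝ) + 1) := by ring
      have h4 : C * ((harmonic S : ℝ) + ((S : ℝ) + 1)⁻¹) =
        C * (harmonic S : ℝ) + C * ((S : ℝ) + 1)⁻¹ := by ring
      rw [h4]
      linarith
  refine ⟨2 * C, by positivity, fun S hS => ?_⟩
  have h1 := key S
  have h2 := harmonic_le_one_add_log S
  have h3 : (∑ s ∈ Icc 1 S, rho s) / ((S : ℝ) + 1) ≤ C := by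
    rw [div_le_iff₀ (by positivity)]
    have := hA S
    nlinarith
  have h4 : 0 ≤ Real.log S := Real.log_nonneg (by exact_mod_cast hS)
  nlinarith [mul_le_mul_of_nonneg_left h2 hC.le, mul_nonneg hC.le h4]

end Pool.Agent.Helper18.Lem
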