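import Pool.Agent.Helper18.Lem.Sums
import Pool.Agent.Helper18.Lem.Pair

/-!
LM-E. Primes `q ≤ L` such that `q - e` has no prime factor in `(y, z]`.

`k = q - e`, `1 ≤ k ≤ L`. If all prime factors of `k` are `≤ y` then `q - e ∈ smo L y` (`q ↦ q - e` is injective on `q > e`). Otherwise `k`
has a prime factor `r > y`, hence `r > z`, `k = s r`, `1 ≤ s`, `s z < s r ≤ L` so `s ≤ L / z`, and `r ≤ L / s`; `s` and `e` are coprime: if `e = 2`
and `s` is even then `q = s r + 2` is even and `> 2`. So these `q` are at most `∑_(s ∈ Icc 1 (L/z), s coprime to e)` of the number of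
`r ∈ Icc 1 (L/s)` with `r` and `s r + e` prime, each `≤ C (M / log^2 M) rho (s e)` with `M = L / s ≥ z ≥ 2` (`pair_count`),
`≤ 2 C (L / s) / (log z)^2 rho s` (`rho_mul_le`, `rho_one`, `rho_two`), and `sum_rho_div` with `S = L / z ≥ 1`,
`log (L / z : ℕ) ≤ log (L / z : ℝ)`.
-/

set_option autoImplicit false

namespace Pool.Agent.Helper18.Lem

open Finset

private theorem surv_one {C₁ : ℝ} (hC₁ : 0 < C₁)
    (h₁ : ∀ a b : ℕ, 0 < a → 0 < b → a.Coprime b → ∀ M : ℕ, 2 ≤ M →
      (((Icc 1 M).filter (fun m => m.Prime ∧ (a * m + b).Prime)).card : ℝ) ≤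
        C₁ * (M / (Real.log M) ^ 2) * rho (a * b))
    {L z e s : ℕ} (he1 : 1 ≤ e) (he2 : e ≤ 2) (hz : 2 ≤ z) (hs : 1 ≤ s) (hsL : s * z ≤ L)
    (hc : s.Coprime e) :
    (((Icc 1 (L / s)).filter (fun m => m.Prime ∧ (s * m + e).Prime)).card : ℝ) ≤
      2 * C₁ * (L / (Real.log z) ^ 2) * (rho s / s) := by
  have hM : z ≤ L / s := (Nat.le_div_iff_mul_le hs).2 (by rwa [mul_comm])
  have h2 := h₁ s e hs he1 hc (L / s) (le_trans hz hM)
  have hre : rho e ≤ 2 := by
    have : e = 1 ∨ e = 2 := by omega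
    rcases this with rfl | rfl
    · rw [rho_one]; norm_num
    · rw [rho_two]
  have hrs : 0 ≤ rho s := by unfold rho; positivity
  have h3 : rho (s * e) ≤ 2 * rho s := by
    calc rho (s * e) ≤ rho s * rho e := rho_mul_le hs he1
      _ ≤ rho s * 2 := mul_le_mul_of_nonneg_left hre hrs
      _ = 2 * rho s := by ring
  have hzr : (2 : ℝ) ≤ z := by exact_mod_cast hz
  have hlz : 0 < Real.log z := Real.log_pos (by linarith)
  have hMr : (z : ℝ) ≤ ((L / s : ℕ) : ℝ) := by exact_mod_cast hM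
  have hlM : Real.log z ≤ Real.log ((L / s : ℕ) : ℝ) := Real.log_le_log (by linarith) hMr
  have hdiv : ((L / s : ℕ) : ℝ) ≤ (L : ℝ) / s := Nat.cast_div_le
  have h4 : ((L / s : ℕ) : ℝ) / (Real.log ((L / s : ℕ) : ℝ)) ^ 2 ≤
      ((L : ℝ) / s) / (Real.log z) ^ 2 := by
    apply div_le_div₀ (by positivity) hdiv (by positivity)
    exact pow_le_pow_left₀ hlz.le hlM 2
  have hse : 0 ≤ rho (s * e) := by unfold rho; positivity
  calc (((Icc 1 (L / s)).filter (fun m => m.Prime ∧ (s * m + e).Prime)).card : ℝ)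
      ≤ C₁ * (((L / s : ℕ) : ℝ) / (Real.log ((L / s : ℕ) : ℝ)) ^ 2) * rho (s * e) := h2
    _ ≤ C₁ * (((L : ℝ) / s) / (Real.log z) ^ 2) * (2 * rho s) := by
        apply mul_le_mul _ h3 hse (by positivity)
        exact mul_le_mul_of_nonneg_left h4 hC₁.le
    _ = 2 * C₁ * (L / (Real.log z) ^ 2) * (rho s / s) := by ring

theorem surv : ∃ C : ℝ, 0 < C ∧ ∀ L y z e : ℕ, 1 ≤ e → e ≤ 2 → 2 ≤ z → z ≤ L →
    (((Icc 1 L).filter (fun q => q.Prime ∧ e < q ∧
      ∀ p ∈ (q - e).primeFactors, ¬ (y < p ∧ p ≤ z))).card : ℝ) ≤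
      (smo L y).card + C * (L * (1 + Real.log (L / z)) / (Real.log z) ^ 2) := by
  classical
  obtain ⟨C₁, hC₁, h₁⟩ := pair_count
  obtain ⟨C₂, hC₂, h₂⟩ := sum_rho_div
  refine ⟨2 * C₁ * C₂, by positivity, ?_⟩
  intro L y z e he1 he2 hz hzL
  set A := (Icc 1 L).filter (fun q => q.Prime ∧ e < q ∧
      ∀ p ∈ (q - e).primeFactors, ¬ (y < p ∧ p ≤ z)) with hA
  set A₁ := A.filter (fun q => ∀ p ∈ (q - e).primeFactors, p ≤ y) with hA₁
  set A₂ := A.filter (fun q => ¬ ∀ p ∈ (q - e).primeFactors, p ≤ y) with hA₂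
  have hcard : A.card = A₁.card + A₂.card := by
    rw [hA₁, hA₂]
    exact (card_filter_add_card_filter_not _).symm
  have hc1 : A₁.card ≤ (smo L y).card := by
    refine card_le_card_of_injOn (fun q => q - e) ?_ ?_
    · intro q hq
      rw [mem_coe, hA₁, mem_filter, hA, mem_filter, mem_Icc] at hq
      obtain ⟨⟨⟨h3, h4⟩, h5, h6, h7⟩, h8⟩ := hq
      show q - e ∈ (smo L y : Set ℕ)
      rw [mem_coe]
      unfold smo
      rw [mem_filter, mem_Icc]
      exact ⟨by omega, h8⟩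
    · intro q hq q' hq' h
      rw [mem_coe, hA₁, mem_filter, hA, mem_filter, mem_Icc] at hq hq'
      have h9 : q - e = q' - e := h
      have h10 := hq.1.2.2.1
      have h11 := hq'.1.2.2.1
      omega
  set T := (Icc 1 (L / z)).filter (fun s => s.Coprime e) with hT
  have hsub : A₂ ⊆ T.biUnion (fun s =>
      ((Icc 1 (L / s)).filter (fun m => m.Prime ∧ (s * m + e).Prime)).image
        (fun m => s * m + e)) := by
    intro q hq
    rw [hA₂, mem_filter, hA, mem_filter, mem_Icc] at hq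
    obtain ⟨⟨⟨h3, h4⟩, h5, h6, h7⟩, h8⟩ := hq
    push Not at h8
    obtain ⟨r, hr, hry⟩ := h8
    have hrz : z < r := by
      have := h7 r hr
      by_contra h
      exact this ⟨hry, by omega⟩
    have hrp := Nat.prime_of_mem_primeFactors hr
    obtain ⟨s, hs⟩ := Nat.dvd_of_mem_primeFactors hr
    have hs1 : 1 ≤ s := by
      rcases Nat.eq_zero_or_pos s with h | h
      · rw [h, mul_zero] at hs; omega
      · exact h
    have hsr : s * r ≤ L := by rw [mul_comm, ← hs]; omega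
    have hsz : s * z ≤ L := le_trans (Nat.mul_le_mul_left s hrz.le) hsr
    have hqe : q = s * r + e := by rw [mul_comm, ← hs]; omega
    have hcop : s.Coprime e := by
      have : e = 1 ∨ e = 2 := by omega
      rcases this with rfl | rfl
      · exact Nat.coprime_one_right s
      · rw [Nat.coprime_two_right]
        by_contra hodd
        rw [Nat.not_odd_iff_even] at hodd
        have hev : Even q := by rw [hqe]; exact (hodd.mul_right r).add even_two
        have := (h5.even_iff).1 hev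
        omega
    rw [mem_biUnion]
    refine ⟨s, ?_, ?_⟩
    · rw [hT, mem_filter, mem_Icc]
      exact ⟨⟨hs1, (Nat.le_div_iff_mul_le (by omega)).2 hsz⟩, hcop⟩
    · rw [mem_image]
      refine ⟨r, ?_, hqe.symm⟩
      rw [mem_filter, mem_Icc]
      refine ⟨⟨hrp.one_lt.le, (Nat.le_div_iff_mul_le hs1).2 (by rwa [mul_comm])⟩, hrp, ?_⟩
      rw [← hqe]; exact h5
  have hzr : (2 : ℝ) ≤ z := by exact_mod_cast hz
  have hlz : 0 < Real.log z := Real.log_pos (by linarith)
  have hc2 : (A₂.card : ℝ) ≤ 2 * C₁ * (L / (Real.log z) ^ 2) *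
      ∑ s ∈ Icc 1 (L / z), rho s / s := by
    have h3 : (A₂.card : ℝ) ≤ ∑ s ∈ T,
        (((Icc 1 (L / s)).filter (fun m => m.Prime ∧ (s * m + e).Prime)).card : ℝ) := by
      have h4 : A₂.card ≤ ∑ s ∈ T,
          ((Icc 1 (L / s)).filter (fun m => m.Prime ∧ (s * m + e).Prime)).card :=
        le_trans (card_le_card hsub) (le_trans card_biUnion_le
          (sum_le_sum fun s _ => card_image_le))
      exact_mod_cast h4
    refine le_trans h3 ?_
    rw [mul_sum]
    have h5 : ∑ s ∈ T, (((Icc 1 (L / s)).filter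
        (fun m => m.Prime ∧ (s * m + e).Prime)).card : ℝ) ≤
        ∑ s ∈ T, 2 * C₁ * (L / (Real.log z) ^ 2) * (rho s / s) := by
      refine sum_le_sum fun s hs => ?_
      rw [hT, mem_filter, mem_Icc] at hs
      exact surv_one hC₁ h₁ he1 he2 hz hs.1.1
        ((Nat.le_div_iff_mul_le (by omega)).1 hs.1.2) hs.2
    refine le_trans h5 ?_
    refine sum_le_sum_of_subset_of_nonneg (filter_subset _ _) fun s _ _ => ?_
    have : 0 ≤ rho s := by unfold rho; positivity
    positivity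
  have hS1 : 1 ≤ L / z := (Nat.one_le_div_iff (by omega)).2 hzL
  have h6 := h₂ (L / z) hS1
  have hlog : Real.log ((L / z : ℕ) : ℝ) ≤ Real.log ((L : ℝ) / z) := by
    refine Real.log_le_log ?_ Nat.cast_div_le
    have : (1 : ℝ) ≤ ((L / z : ℕ) : ℝ) := by exact_mod_cast hS1
    linarith
  have h7 : ∑ s ∈ Icc 1 (L / z), rho s / s ≤ C₂ * (1 + Real.log ((L : ℝ) / z)) :=
    le_trans h6 (mul_le_mul_of_nonneg_left (by linarith) hC₂.le)
  have h8 : (A₂.card : ℝ) ≤ 2 * C₁ * C₂ *
      (L * (1 + Real.log (L / z)) / (Real.log z) ^ 2) := by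
    refine le_trans hc2 ?_
    calc 2 * C₁ * (L / (Real.log z) ^ 2) * ∑ s ∈ Icc 1 (L / z), rho s / s
        ≤ 2 * C₁ * (L / (Real.log z) ^ 2) * (C₂ * (1 + Real.log ((L : ℝ) / z))) :=
          mul_le_mul_of_nonneg_left h7 (by positivity)
      _ = 2 * C₁ * C₂ * (L * (1 + Real.log (L / z)) / (Real.log z) ^ 2) := by ring
  have h9 : (A.card : ℝ) = A₁.card + A₂.card := by exact_mod_cast hcard
  rw [h9]
  have h10 : (A₁.card : ℝ) ≤ (smo L y).card := by exact_mod_cast hc1
  linarith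

end Pool.Agent.Helper18.Lem
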